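import Pool.Agent.H48.ER.Defs

/-!
# MP_816b90_co: closed lemmas on chordless paths
-/

set_option autoImplicit false
set_option linter.unusedVariables false

namespace Pool.Agent.H48.ER

variable {V : Type} {G G' : SimpleGraph V} {n m : ℕ} {x y z u v w : V} {R T : Set V}

theorem IP.left_mem (h : IP G n x y R) : x ∈ R := by
  obtain ⟨g, h0, _, _, _, hR⟩ := h
  rw [hR]
  exact ⟨0, Nat.zero_le _, h0⟩

theorem IP.right_mem (h : IP G n x y R) : y ∈ R := by
  obtain ⟨g, _, hn, _, _, hR⟩ := h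
  rw [hR]
  exact ⟨n, le_rfl, hn⟩

theorem IP.finite (h : IP G n x y R) : R.Finite := by
  obtain ⟨g, _, _, _, _, hR⟩ := h
  rw [hR]
  refine ((Finset.range (n + 1)).finite_toSet.image g).subset ?_
  rintro v ⟨i, hi, rfl⟩
  exact ⟨i, by simpa using Nat.lt_succ_of_le hi, rfl⟩

theorem IP.zero (x : V) : IP G 0 x x {x} := by
  refine ⟨fun _ => x, rfl, rfl, ?_, ?_, ?_⟩
  · intro i j hi hj _
    omega
  · intro i j hi hj
    constructor
    · intro h
      exact absurd h (G.loopless.irrefl x)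
    · intro h
      omega
  · ext v
    constructor
    · intro h
      exact ⟨0, le_rfl, (Set.mem_singleton_iff.1 h).symm⟩
    · rintro ⟨_, _, h⟩
      exact h.symm

theorem IP.eq_of_zero (h : IP G 0 x y R) : x = y ∧ R = {x} := by
  obtain ⟨g, h0, hn, _, _, hR⟩ := h
  refine ⟨h0.symm.trans hn, ?_⟩
  rw [hR]
  ext v
  constructor
  · rintro ⟨i, hi, hv⟩
    have : i = 0 := by omega
    subst this
    rw [← hv, h0]
    rfl
  · intro hv
    exact ⟨0, le_rfl, by rw [h0]; exact (Set.mem_singleton_iff.1 hv).symm⟩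

theorem IP.rev (h : IP G n x y R) : IP G n y x R := by
  obtain ⟨g, h0, hn, hi, ha, hR⟩ := h
  refine ⟨fun i => g (n - i), by simpa using hn, by simpa using h0, ?_, ?_, ?_⟩
  · intro i j hin hjn e
    have := hi (n - i) (n - j) (Nat.sub_le _ _) (Nat.sub_le _ _) e
    omega
  · intro i j hin hjn
    rw [ha (n - i) (n - j) (Nat.sub_le _ _) (Nat.sub_le _ _)]
    omega
  · rw [hR]
    ext v
    constructor
    · rintro ⟨i, hin, rfl⟩
      exact ⟨n - i, Nat.sub_le _ _, by
        show g (n - (n - i)) = g i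
        congr 1; omega⟩
    · rintro ⟨i, hin, rfl⟩
      exact ⟨n - i, Nat.sub_le _ _, rfl⟩

/-- two paths joined by an edge -/
theorem IP.append (h1 : IP G n x y R) (h2 : IP G m z w T) (hd : Disjoint R T)
    (he : XE G R T y z) : IP G (n + m + 1) x w (R ∪ T) := by
  obtain ⟨g, g0, gn, gi, ga, hR⟩ := h1
  obtain ⟨k, k0, km, ki, ka, hT⟩ := h2
  have hgR : ∀ i, i ≤ n → g i ∈ R := fun i hi => by rw [hR]; exact ⟨i, hi, rfl⟩
  have hkT : ∀ i, i ≤ m → k i ∈ T := fun i hi => by rw [hT]; exact ⟨i, hi, rfl⟩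
  have hne : ∀ a ∈ R, ∀ b ∈ T, a ≠ b := fun a ha b hb hab =>
    Set.disjoint_left.1 hd ha (hab ▸ hb)
  refine ⟨fun i => if i ≤ n then g i else k (i - n - 1), ?_, ?_, ?_, ?_, ?_⟩
  · simp [g0]
  · have h : ¬ (n + m + 1 ≤ n) := by omega
    simp only [h, if_false]
    rw [← km]; congr 1; omega
  · intro i j hi hj e
    by_cases h1 : i ≤ n <;> by_cases h2 : j ≤ n
    · simp only [h1, h2, if_true] at e
      exact gi i j h1 h2 e
    · simp only [h1, h2, if_true, if_false] at e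
      exact absurd e (hne _ (hgR i h1) _ (hkT _ (by omega)))
    · simp only [h1, h2, if_true, if_false] at e
      exact absurd e.symm (hne _ (hgR j h2) _ (hkT _ (by omega)))
    · simp only [h1, h2, if_false] at e
      have := ki _ _ (by omega) (by omega) e
      omega
  · intro i j hi hj
    by_cases h1 : i ≤ n <;> by_cases h2 : j ≤ n
    · simp only [h1, h2, if_true]
      exact ga i j h1 h2
    · simp only [h1, h2, if_true, if_false]
      rw [he _ (hgR i h1) _ (hkT _ (by omega))]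
      constructor
      · rintro ⟨e1, e2⟩
        have q1 := gi i n h1 le_rfl (e1.trans gn.symm)
        have q2 := ki (j - n - 1) 0 (by omega) (by omega) (e2.trans k0.symm)
        omega
      · intro h
        have q1 : i = n := by omega
        have q2 : j - n - 1 = 0 := by omega
        rw [q1, q2]
        exact ⟨gn, k0⟩
    · simp only [h1, h2, if_true, if_false]
      rw [SimpleGraph.adj_comm, he _ (hgR j h2) _ (hkT _ (by omega))]
      constructor
      · rintro ⟨e1, e2⟩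
        have q1 := gi j n h2 le_rfl (e1.trans gn.symm)
        have q2 := ki (i - n - 1) 0 (by omega) (by omega) (e2.trans k0.symm)
        omega
      · intro h
        have q1 : j = n := by omega
        have q2 : i - n - 1 = 0 := by omega
        rw [q1, q2]
        exact ⟨gn, k0⟩
    · simp only [h1, h2, if_false]
      rw [ka _ _ (by omega) (by omega)]
      omega
  · ext v
    constructor
    · rintro (hv | hv)
      · rw [hR] at hv
        obtain ⟨i, hi, rfl⟩ := hv
        exact ⟨i, by omega, by simp [hi]⟩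
      · rw [hT] at hv
        obtain ⟨i, hi, rfl⟩ := hv
        refine ⟨n + 1 + i, by omega, ?_⟩
        have h : ¬ (n + 1 + i ≤ n) := by omega
        simp only [h, if_false]
        congr 1; omega
    · rintro ⟨i, hi, rfl⟩
      by_cases h1 : i ≤ n
      · simp only [h1, if_true]
        exact Or.inl (hgR i h1)
      · simp only [h1, if_false]
        exact Or.inr (hkT _ (by omega))

/-- one more vertex in front -/
theorem IP.cons (h : IP G n x y R) (hu : u ∉ R) (ha : ∀ w ∈ R, G.Adj u w ↔ w = x) :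
    IP G (n + 1) u y (insert u R) := by
  have h1 : IP G 0 u u {u} := IP.zero u
  have hd : Disjoint ({u} : Set V) R := by
    rw [Set.disjoint_singleton_left]; exact hu
  have he : XE G {u} R u x := by
    intro a h2 b hb
    rw [Set.mem_singleton_iff.1 h2, ha b hb]
    simp
  have h3 := h1.append h hd he
  rw [Set.singleton_union] at h3
  have e : 0 + n + 1 = n + 1 := by omega
  rwa [e] at h3

/-- one more vertex at the end -/
theorem IP.snoc (h : IP G n x y R) (hu : u ∉ R) (ha : ∀ w ∈ R, G.Adj u w ↔ w = y) :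
    IP G (n + 1) x u (insert u R) := (h.rev.cons hu ha).rev

/-- splitting of a path at the vertex `w` -/
theorem IP.split (h : IP G n x y R) (hw : w ∈ R) :
    ∃ (i j : ℕ) (R1 R2 : Set V), IP G i x w R1 ∧ IP G j w y R2 ∧ i + j = n ∧ R1 ∪ R2 = R ∧
      R1 ∩ R2 = {w} ∧ NE G (R1 \ {w}) (R2 \ {w}) := by
  obtain ⟨g, g0, gn, gi, ga, hR⟩ := h
  rw [hR] at hw
  obtain ⟨i, hi, rfl⟩ := hw
  refine ⟨i, n - i, {v | ∃ j, j ≤ i ∧ g j = v}, {v | ∃ j, j ≤ n - i ∧ g (i + j) = v},
    ⟨g, g0, rfl, ?_, ?_, rfl⟩, ⟨fun j => g (i + j), by simp, ?_, ?_, ?_, rfl⟩, by omega,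
    ?_, ?_, ?_⟩
  · intro a b ha hb e
    exact gi a b (by omega) (by omega) e
  · intro a b ha hb
    exact ga a b (by omega) (by omega)
  · show g (i + (n - i)) = y
    rw [← gn]; congr 1; omega
  · intro a b ha hb e
    have := gi _ _ (by omega) (by omega) e
    omega
  · intro a b ha hb
    show G.Adj (g (i + a)) (g (i + b)) ↔ _
    rw [ga _ _ (by omega) (by omega)]
    omega
  · rw [hR]
    ext v
    constructor
    · rintro (⟨j, hj, rfl⟩ | ⟨j, hj, rfl⟩)
      · exact ⟨j, by omega, rfl⟩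
      · exact ⟨i + j, by omega, rfl⟩
    · rintro ⟨j, hj, rfl⟩
      by_cases h : j ≤ i
      · exact Or.inl ⟨j, h, rfl⟩
      · exact Or.inr ⟨j - i, by omega, by congr 1; omega⟩
  · ext v
    constructor
    · rintro ⟨⟨j, hj, rfl⟩, ⟨l, hl, e⟩⟩
      have := gi _ _ (by omega) (by omega) e
      have e2 : j = i := by omega
      rw [e2]; rfl
    · intro hv
      rw [Set.mem_singleton_iff.1 hv]
      exact ⟨⟨i, le_rfl, rfl⟩, ⟨0, Nat.zero_le _, rfl⟩⟩
  · rintro a ⟨⟨j, hj, rfl⟩, hja⟩ b ⟨⟨l, hl, rfl⟩, hlb⟩ hadj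
    rw [ga _ _ (by omega) (by omega)] at hadj
    have h1 : j ≠ i := fun h => hja (by rw [h]; rfl)
    have h2 : l ≠ 0 := fun h => hlb (by rw [h]; rfl)
    omega

/-- removing the first vertex -/
theorem IP.tail (h : IP G (n + 1) x y R) :
    ∃ x', G.Adj x x' ∧ x' ∈ R ∧ IP G n x' y (R \ {x}) ∧ ∀ w ∈ R, G.Adj x w → w = x' := by
  obtain ⟨g, g0, gn, gi, ga, hR⟩ := h
  refine ⟨g 1, ?_, ?_, ⟨fun j => g (j + 1), rfl, gn, ?_, ?_, ?_⟩, ?_⟩
  · rw [← g0, ga 0 1 (by omega) (by omega)]; omega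
  · rw [hR]; exact ⟨1, by omega, rfl⟩
  · intro a b ha hb e
    have := gi _ _ (by omega) (by omega) e
    omega
  · intro a b ha hb
    show G.Adj (g (a + 1)) (g (b + 1)) ↔ _
    rw [ga _ _ (by omega) (by omega)]
    omega
  · rw [hR]
    ext v
    constructor
    · rintro ⟨⟨i, hi, rfl⟩, hv⟩
      have h1 : i ≠ 0 := fun h => hv (by rw [h, g0]; rfl)
      refine ⟨i - 1, by omega, ?_⟩
      show g (i - 1 + 1) = g i
      rw [Nat.sub_add_cancel (Nat.one_le_iff_ne_zero.2 h1)]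
    · rintro ⟨i, hi, rfl⟩
      refine ⟨⟨i + 1, by omega, rfl⟩, fun h => ?_⟩
      have h2 : g (i + 1) = g 0 := (Set.mem_singleton_iff.1 h).trans g0.symm
      have := gi _ _ (by omega) (by omega) h2
      omega
  · intro w hw hadj
    rw [hR] at hw
    obtain ⟨i, hi, rfl⟩ := hw
    rw [← g0, ga 0 i (by omega) hi] at hadj
    have : i = 1 := by omega
    rw [this]

/-- two paths with a common end -/
theorem IP.glue (h1 : IP G n x y R) (h2 : IP G m y z T) (hi : R ∩ T = {y})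
    (he : NE G (R \ {y}) (T \ {y})) : IP G (n + m) x z (R ∪ T) := by
  cases m with
  | zero =>
    obtain ⟨e, hT⟩ := h2.eq_of_zero
    subst e
    have : R ∪ T = R := by
      rw [hT]; exact Set.union_eq_self_of_subset_right (Set.singleton_subset_iff.2 h1.right_mem)
    rw [this]
    exact h1
  | succ m =>
    obtain ⟨y', hyy, hy', hT, hu⟩ := h2.tail
    have hyT : y ∈ T := h2.left_mem
    have hd : Disjoint R (T \ {y}) := by
      rw [Set.disjoint_left]
      rintro a ha ⟨haT, hay⟩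
      have : a ∈ R ∩ T := ⟨ha, haT⟩
      rw [hi] at this
      exact hay this
    have hxe : XE G R (T \ {y}) y y' := by
      intro a ha b hb
      constructor
      · intro hab
        by_cases h : a = y
        · subst h
          exact ⟨rfl, hu b hb.1 hab⟩
        · exact absurd hab (he a ⟨ha, h⟩ b hb)
      · rintro ⟨rfl, rfl⟩
        exact hyy
    have h3 := h1.append hT hd hxe
    have hun : R ∪ (T \ {y}) = R ∪ T := by
      ext a
      constructor
      · rintro (h | h)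
        · exact Or.inl h
        · exact Or.inr h.1
      · rintro (h | h)
        · exact Or.inl h
        · by_cases e : a = y
          · exact Or.inl (e ▸ h1.right_mem)
          · exact Or.inr ⟨h, e⟩
    rw [hun] at h3
    have e : n + m + 1 = n + (m + 1) := by omega
    rwa [e] at h3

/-- image of a path under a map which preserves adjacency -/
theorem IP.map (h : IP G n x y R) (f : V → V) (hf : Set.InjOn f R)
    (ha : ∀ u ∈ R, ∀ v ∈ R, G'.Adj (f u) (f v) ↔ G.Adj u v) : IP G' n (f x) (f y) (f '' R) := by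
  obtain ⟨g, g0, gn, gi, gadj, hR⟩ := h
  have hgR : ∀ i, i ≤ n → g i ∈ R := fun i hi => by rw [hR]; exact ⟨i, hi, rfl⟩
  refine ⟨fun i => f (g i), by simp [g0], by simp [gn], ?_, ?_, ?_⟩
  · intro i j hi hj e
    exact gi i j hi hj (hf (hgR i hi) (hgR j hj) e)
  · intro i j hi hj
    show G'.Adj (f (g i)) (f (g j)) ↔ _
    rw [ha _ (hgR i hi) _ (hgR j hj), gadj i j hi hj]
  · rw [hR]
    ext v
    constructor
    · rintro ⟨u, ⟨i, hi, rfl⟩, rfl⟩
      exact ⟨i, hi, rfl⟩
    · rintro ⟨i, hi, rfl⟩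
      exact ⟨g i, ⟨i, hi, rfl⟩, rfl⟩

/-- paths depend only on the adjacency inside -/
theorem IP.congr (h : IP G n x y R) (ha : ∀ u ∈ R, ∀ v ∈ R, G'.Adj u v ↔ G.Adj u v) :
    IP G' n x y R := by
  have := h.map (G' := G') id (Set.injOn_id R) ha
  simpa using this

/-- an edge is a path -/
theorem IP.edge (h : G.Adj x y) : IP G 1 x y {x, y} := by
  have h1 : x ∉ ({y} : Set V) := fun e => h.ne (Set.mem_singleton_iff.1 e)
  refine (IP.zero y).cons h1 ?_
  intro w hw
  rw [Set.mem_singleton_iff.1 hw]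
  exact ⟨fun _ => rfl, fun _ => h⟩

/-- a path of length `0` has one vertex, the ends of longer paths are different -/
theorem IP.ne (h : IP G n x y R) (hn : 1 ≤ n) : x ≠ y := by
  obtain ⟨g, g0, gn, gi, _, _⟩ := h
  intro e
  have := gi 0 n (Nat.zero_le _) le_rfl (by rw [g0, gn, e])
  omega

/-- adjacency of the ends -/
theorem IP.adj_iff (h : IP G n x y R) : G.Adj x y ↔ n = 1 := by
  obtain ⟨g, g0, gn, gi, ga, _⟩ := h
  have := ga 0 n (Nat.zero_le _) le_rfl
  rw [g0, gn] at this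
  rw [this]
  omega

/-- the number of vertices of a path -/
theorem IP.ncard (h : IP G n x y R) : R.ncard = n + 1 := by
  obtain ⟨g, _, _, gi, _, hR⟩ := h
  have e : R = g '' (Set.Iic n) := by
    rw [hR]; ext v; simp
  rw [e, Set.InjOn.ncard_image]
  · simp [Set.ncard_eq_toFinset_card']
  · intro i hi j hj e
    exact gi i j hi hj e

/-! ### Prisms -/

variable {a b : Fin 3 → V} {k : Fin 3 → ℕ} {P : Fin 3 → Set V}

theorem mem_ver {i : Fin 3} (h : v ∈ P i) : v ∈ ver P := ⟨i, h⟩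

theorem Prism.perm (h : Prism G a b k P) (σ : Fin 3 → Fin 3) (hσ : Function.Injective σ) :
    Prism G (fun i => a (σ i)) (fun i => b (σ i)) (fun i => k (σ i)) (fun i => P (σ i)) where
  ip i := h.ip (σ i)
  pos i := h.pos (σ i)
  dis i j hij := h.dis _ _ fun e => hij (hσ e)
  adj i j hij := h.adj _ _ fun e => hij (hσ e)

theorem ver_perm (σ : Fin 3 → Fin 3) (hσ : Function.Surjective σ) :
    ver (fun i => P (σ i)) = ver P := by
  ext v
  constructor
  · rintro ⟨i, hi⟩
    exact ⟨σ i, hi⟩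
  · rintro ⟨i, hi⟩
    obtain ⟨j, rfl⟩ := hσ i
    exact ⟨j, hi⟩

theorem Prism.flip (h : Prism G a b k P) : Prism G b a k P where
  ip i := (h.ip i).rev
  pos := h.pos
  dis := h.dis
  adj i j hij u hu v hv := by rw [h.adj i j hij u hu v hv]; exact Or.comm

theorem Prism.a_mem (h : Prism G a b k P) (i : Fin 3) : a i ∈ P i := (h.ip i).left_mem

theorem Prism.b_mem (h : Prism G a b k P) (i : Fin 3) : b i ∈ P i := (h.ip i).right_mem

theorem Prism.a_ne_b (h : Prism G a b k P) (i j : Fin 3) : a i ≠ b j := by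
  by_cases e : i = j
  · subst e
    exact (h.ip i).ne (h.pos i)
  · intro e2
    exact Set.disjoint_left.1 (h.dis i j e) (h.a_mem i) (e2 ▸ h.b_mem j)

theorem Prism.ne_of_mem (h : Prism G a b k P) {i j : Fin 3} (hij : i ≠ j) (hu : u ∈ P i)
    (hv : v ∈ P j) : u ≠ v := fun e => Set.disjoint_left.1 (h.dis i j hij) hu (e ▸ hv)

/-- the rung of a vertex is unique -/
theorem Prism.rung (h : Prism G a b k P) {i j : Fin 3} (hu : u ∈ P i) (hv : u ∈ P j) : i = j := by
  by_contra e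
  exact h.ne_of_mem e hu hv rfl

theorem Prism.a_adj (h : Prism G a b k P) {i j : Fin 3} (hij : i ≠ j) : G.Adj (a i) (a j) :=
  (h.adj i j hij _ (h.a_mem i) _ (h.a_mem j)).2 (Or.inl ⟨rfl, rfl⟩)

theorem Prism.b_adj (h : Prism G a b k P) {i j : Fin 3} (hij : i ≠ j) : G.Adj (b i) (b j) :=
  (h.adj i j hij _ (h.b_mem i) _ (h.b_mem j)).2 (Or.inr ⟨rfl, rfl⟩)

theorem Prism.map (h : Prism G a b k P) (f : V → V) (hf : Set.InjOn f (ver P))
    (ha : ∀ u ∈ ver P, ∀ v ∈ ver P, G'.Adj (f u) (f v) ↔ G.Adj u v) :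
    Prism G' (fun i => f (a i)) (fun i => f (b i)) k (fun i => f '' P i) where
  ip i := (h.ip i).map f (hf.mono fun _ hv => mem_ver hv)
    fun u hu v hv => ha u (mem_ver hu) v (mem_ver hv)
  pos := h.pos
  dis i j hij := by
    rw [Set.disjoint_left]
    rintro _ ⟨u, hu, rfl⟩ ⟨v, hv, e⟩
    have := hf (mem_ver hv) (mem_ver hu) e
    exact h.ne_of_mem hij hu hv this.symm
  adj i j hij := by
    rintro _ ⟨u, hu, rfl⟩ _ ⟨v, hv, rfl⟩
    rw [ha u (mem_ver hu) v (mem_ver hv), h.adj i j hij u hu v hv]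
    constructor
    · rintro (⟨rfl, rfl⟩ | ⟨rfl, rfl⟩)
      · exact Or.inl ⟨rfl, rfl⟩
      · exact Or.inr ⟨rfl, rfl⟩
    · rintro (⟨e1, e2⟩ | ⟨e1, e2⟩)
      · exact Or.inl ⟨hf (mem_ver hu) (mem_ver (h.a_mem i)) e1,
          hf (mem_ver hv) (mem_ver (h.a_mem j)) e2⟩
      · exact Or.inr ⟨hf (mem_ver hu) (mem_ver (h.b_mem i)) e1,
          hf (mem_ver hv) (mem_ver (h.b_mem j)) e2⟩

/-- prisms depend only on the adjacency inside -/
theorem Prism.congr (h : Prism G a b k P)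
    (ha : ∀ u ∈ ver P, ∀ v ∈ ver P, G'.Adj u v ↔ G.Adj u v) : Prism G' a b k P := by
  have := h.map (G' := G') id (Set.injOn_id _) ha
  simpa using this

/-- a prism given by three explicit rungs -/
theorem mk3 {a1 a2 a3 b1 b2 b3 : V} {n1 n2 n3 : ℕ} {P1 P2 P3 : Set V}
    (p1 : IP G n1 a1 b1 P1) (p2 : IP G n2 a2 b2 P2) (p3 : IP G n3 a3 b3 P3)
    (o1 : 1 ≤ n1) (o2 : 1 ≤ n2) (o3 : 1 ≤ n3)
    (d12 : Disjoint P1 P2) (d13 : Disjoint P1 P3) (d23 : Disjoint P2 P3)
    (x12 : ∀ u ∈ P1, ∀ v ∈ P2, G.Adj u v ↔ (u = a1 ∧ v = a2) ∨ (u = b1 ∧ v = b2))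
    (x13 : ∀ u ∈ P1, ∀ v ∈ P3, G.Adj u v ↔ (u = a1 ∧ v = a3) ∨ (u = b1 ∧ v = b3))
    (x23 : ∀ u ∈ P2, ∀ v ∈ P3, G.Adj u v ↔ (u = a2 ∧ v = a3) ∨ (u = b2 ∧ v = b3)) :
    Prism G ![a1, a2, a3] ![b1, b2, b3] ![n1, n2, n3] ![P1, P2, P3] where
  ip i := by fin_cases i <;> assumption
  pos i := by fin_cases i <;> assumption
  dis i j hij := by
    fin_cases i <;> fin_cases j <;>
      first
        | exact absurd rfl hij
        | exact d12
        | exact d13
        | exact d23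
        | exact d12.symm
        | exact d13.symm
        | exact d23.symm
  adj i j hij := by
    have s12 : ∀ u ∈ P2, ∀ v ∈ P1, G.Adj u v ↔ (u = a2 ∧ v = a1) ∨ (u = b2 ∧ v = b1) := by
      intro u hu v hv
      rw [SimpleGraph.adj_comm, x12 v hv u hu]
      exact or_congr and_comm and_comm
    have s13 : ∀ u ∈ P3, ∀ v ∈ P1, G.Adj u v ↔ (u = a3 ∧ v = a1) ∨ (u = b3 ∧ v = b1) := by
      intro u hu v hv
      rw [SimpleGraph.adj_comm, x13 v hv u hu]
      exact or_congr and_comm and_comm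
    have s23 : ∀ u ∈ P3, ∀ v ∈ P2, G.Adj u v ↔ (u = a3 ∧ v = a2) ∨ (u = b3 ∧ v = b2) := by
      intro u hu v hv
      rw [SimpleGraph.adj_comm, x23 v hv u hu]
      exact or_congr and_comm and_comm
    fin_cases i <;> fin_cases j <;>
      first
        | exact absurd rfl hij
        | exact x12
        | exact x13
        | exact x23
        | exact s12
        | exact s13
        | exact s23

/-- the parity condition for a prism given by three explicit rungs -/
theorem NOP.mk3 (hG : NOP G) {a1 a2 a3 b1 b2 b3 : V} {n1 n2 n3 : ℕ} {P1 P2 P3 : Set V}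
    (h : Prism G ![a1, a2, a3] ![b1, b2, b3] ![n1, n2, n3] ![P1, P2, P3]) :
    ¬ (Odd n1 ∧ Odd n2 ∧ Odd n3) := by
  rintro ⟨h1, h2, h3⟩
  refine hG _ _ _ _ h fun i => ?_
  fin_cases i <;> assumption

/-! ### Contraction, treewidth -/

theorem Tw3.mono (h : Tw3 G) (hle : G' ≤ G) : Tw3 G' := by
  obtain ⟨H, f, h1, h2⟩ := h
  exact ⟨H, f, hle.trans h1, h2⟩

theorem ctr_adj (p q u v : V) : (ctr G p q).Adj u v ↔
    u ≠ v ∧ u ≠ q ∧ v ≠ q ∧ (G.Adj u v ∨ (u = p ∧ G.Adj q v) ∨ (v = p ∧ G.Adj u q)) := Iff.rfl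

theorem ctr_adj_of_ne {p q u v : V} (h1 : u ≠ p) (h2 : u ≠ q) (h3 : v ≠ p) (h4 : v ≠ q) :
    (ctr G p q).Adj u v ↔ G.Adj u v := by
  rw [ctr_adj]
  constructor
  · rintro ⟨_, _, _, h | h | h⟩
    · exact h
    · exact absurd h.1 h1
    · exact absurd h.1 h3
  · intro h
    exact ⟨h.ne, h2, h4, Or.inl h⟩

theorem ctr_adj_left {p q v : V} (h1 : v ≠ p) (h2 : v ≠ q) (hpq : p ≠ q) :
    (ctr G p q).Adj p v ↔ G.Adj p v ∨ G.Adj q v := by
  rw [ctr_adj]
  constructor
  · rintro ⟨_, _, _, h | h | h⟩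
    · exact Or.inl h
    · exact Or.inr h.2
    · exact absurd h.1 h1
  · rintro (h | h)
    · exact ⟨h1.symm, hpq, h2, Or.inl h⟩
    · exact ⟨h1.symm, hpq, h2, Or.inr (Or.inl ⟨rfl, h⟩)⟩

theorem ctr_not_adj {p q v : V} : ¬ (ctr G p q).Adj q v := fun h => h.2.1 rfl

/-- restriction of the elimination order to the support -/
theorem exists_ctx [Finite V] {S : Set V} (h : MC G S) :
    ∃ (H : SimpleGraph V) (f : V → ℕ), Ctx G S H f := by
  obtain ⟨H, f, h1, h2⟩ := h.tw
  let H' : SimpleGraph V :=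
    { Adj := fun a b => H.Adj a b ∧ a ∈ S ∧ b ∈ S
      symm := ⟨fun _ _ h => ⟨h.1.symm, h.2.2, h.2.1⟩⟩
      loopless := ⟨fun _ h => H.loopless.irrefl _ h.1⟩ }
  have hsub : ∀ v, upper H' f v ⊆ upper H f v := fun v u hu => ⟨hu.1.1, hu.2⟩
  refine ⟨H', f, h, ?_, ⟨h2.inj, ?_, ?_⟩, ?_⟩
  · intro u v huv
    exact ⟨h1 huv, h.sup u v huv⟩
  · intro v u hu w hw huw
    exact ⟨h2.cl v u (hsub v hu) w (hsub v hw) huw, hu.1.2.2, hw.1.2.2⟩
  · intro v
    exact (Set.ncard_le_ncard (hsub v) (Set.toFinite _)).trans (h2.card v)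
  · intro u v huv
    exact huv.2

end Pool.Agent.H48.ER
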