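import Pool.Agent.H48.ER.Targets

/-!
# MP_816b90_co: row EC (contraction of an edge keeps treewidth at most three)
-/

set_option autoImplicit false

namespace Pool.Agent.H48.ER

theorem pf_EC : T_EC := by
  classical
  intro V _ G p q hT hpq0
  obtain ⟨H, f, hGH, hP⟩ := hT
  have hpq : p ≠ q := hpq0.ne
  have hH : H.Adj p q := hGH hpq0
  have key : ∃ l e : V, ((l = p ∧ e = q) ∨ (l = q ∧ e = p)) ∧ f e < f l := by
    rcases lt_trichotomy (f p) (f q) with h | h | h
    · exact ⟨q, p, Or.inr ⟨rfl, rfl⟩, h⟩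
    · exact absurd (hP.inj h) hpq
    · exact ⟨p, q, Or.inl ⟨rfl, rfl⟩, h⟩
  obtain ⟨l, e, hle, hlt⟩ := key
  have hel : H.Adj e l := by
    rcases hle with ⟨rfl, rfl⟩ | ⟨rfl, rfl⟩
    · exact hH.symm
    · exact hH
  have hpl : ∀ w, (w = p ∨ w = q) ↔ (w = l ∨ w = e) := by
    intro w
    rcases hle with ⟨rfl, rfl⟩ | ⟨rfl, rfl⟩
    · exact Iff.rfl
    · exact or_comm
  obtain ⟨f1, hf1⟩ : ∃ f1 : V → ℕ, ∀ v, f1 v = if v = p then f l else if v = q then f e else f v :=
    ⟨_, fun _ => rfl⟩
  have f1p : f1 p = f l := by rw [hf1, if_pos rfl]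
  have f1q : f1 q = f e := by rw [hf1, if_neg hpq.symm, if_pos rfl]
  have f1o : ∀ v, v ≠ p → v ≠ q → f1 v = f v := fun v h1 h2 => by
    rw [hf1, if_neg h1, if_neg h2]
  have f1i : Function.Injective f1 := by
    intro a b hab
    have hl : ∀ v, v ≠ p → v ≠ q → f v ≠ f l ∧ f v ≠ f e := by
      intro v h1 h2
      refine ⟨fun h => ?_, fun h => ?_⟩
      · have := (hpl v).2 (Or.inl (hP.inj h))
        tauto
      · have := (hpl v).2 (Or.inr (hP.inj h))
        tauto
    by_cases ap : a = p
    · by_cases bp : b = p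
      · rw [ap, bp]
      · by_cases bq : b = q
        · rw [ap, bq, f1p, f1q] at hab
          omega
        · rw [ap, f1p, f1o b bp bq] at hab
          exact absurd hab.symm (hl b bp bq).1
    · by_cases aq : a = q
      · by_cases bp : b = p
        · rw [aq, bp, f1p, f1q] at hab
          omega
        · by_cases bq : b = q
          · rw [aq, bq]
          · rw [aq, f1q, f1o b bp bq] at hab
            exact absurd hab.symm (hl b bp bq).2
      · by_cases bp : b = p
        · rw [bp, f1p, f1o a ap aq] at hab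
          exact absurd hab (hl a ap aq).1
        · by_cases bq : b = q
          · rw [bq, f1q, f1o a ap aq] at hab
            exact absurd hab (hl a ap aq).2
          · rw [f1o a ap aq, f1o b bp bq] at hab
            exact hP.inj hab
  obtain ⟨ph, hph⟩ : ∃ ph : V → V, ∀ v, ph v = if v = q then p else v := ⟨_, fun _ => rfl⟩
  have phq : ph q = p := by rw [hph, if_pos rfl]
  have pho : ∀ v, v ≠ q → ph v = v := fun v h => by rw [hph, if_neg h]
  have adj : ∀ a b, H.Adj a b → ph a ≠ ph b → (ctr H p q).Adj (ph a) (ph b) := by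
    intro a b hab hne
    by_cases aq : a = q
    · have bq : b ≠ q := fun h => hab.ne (by rw [aq, h])
      rw [aq, phq, pho b bq] at hne ⊢
      rw [aq] at hab
      exact ⟨hne, hpq, bq, Or.inr (Or.inl ⟨rfl, hab⟩)⟩
    · by_cases bq : b = q
      · rw [bq, phq, pho a aq] at hne ⊢
        rw [bq] at hab
        exact ⟨hne, aq, hpq, Or.inr (Or.inr ⟨rfl, hab⟩)⟩
      · rw [pho a aq, pho b bq] at hne ⊢
        exact ⟨hne, aq, bq, Or.inl hab⟩
  have main : ∀ v, v ≠ q → ∃ v', ∀ w ∈ upper (ctr H p q) f1 v, ∃ z ∈ upper H f v', ph z = w := by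
    intro v hvq
    by_cases hvp : v = p
    · refine ⟨l, ?_⟩
      rintro w ⟨⟨h1, h2, h3, h4⟩, h5⟩
      rw [hvp] at h1 h4 h5
      have hwp : w ≠ p := fun h => h1 h.symm
      rw [f1p, f1o w hwp h3] at h5
      have hadj : H.Adj p w ∨ H.Adj q w := by
        rcases h4 with h | ⟨_, h⟩ | ⟨h, _⟩
        · exact Or.inl h
        · exact Or.inr h
        · exact absurd h hwp
      have hadj2 : H.Adj l w ∨ H.Adj e w := by
        rcases hle with ⟨rfl, rfl⟩ | ⟨rfl, rfl⟩
        · exact hadj
        · exact hadj.symm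
      have hwl : w ≠ l := fun h => by rw [h] at h5; omega
      have hl : H.Adj l w := by
        rcases hadj2 with h | h
        · exact h
        · exact hP.cl e l ⟨hel, hlt⟩ w ⟨h, by omega⟩ hwl.symm
      exact ⟨w, ⟨hl, h5⟩, pho w h3⟩
    · refine ⟨v, ?_⟩
      rintro w ⟨⟨h1, h2, h3, h4⟩, h5⟩
      rw [f1o v hvp hvq] at h5
      by_cases hwp : w = p
      · rw [hwp, f1p] at h5
        rw [hwp] at h4
        have hadj : H.Adj p v ∨ H.Adj q v := by
          rcases h4 with h | ⟨h, _⟩ | ⟨_, h⟩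
          · exact Or.inl h.symm
          · exact absurd h hvp
          · exact Or.inr h.symm
        have hadj2 : H.Adj l v ∨ H.Adj e v := by
          rcases hle with ⟨rfl, rfl⟩ | ⟨rfl, rfl⟩
          · exact hadj
          · exact hadj.symm
        have hvl : v ≠ l := fun h => by rw [h] at h5; omega
        have hz : ∃ z ∈ upper H f v, z = l ∨ z = e := by
          by_cases hvl2 : H.Adj l v
          · exact ⟨l, ⟨hvl2.symm, h5⟩, Or.inl rfl⟩
          · have hev : H.Adj e v := hadj2.resolve_left hvl2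
            by_cases hfe : f v < f e
            · exact ⟨e, ⟨hev.symm, hfe⟩, Or.inr rfl⟩
            · have hne : f v ≠ f e := fun h => hev.ne (hP.inj h).symm
              exact absurd (hP.cl e l ⟨hel, hlt⟩ v ⟨hev, by omega⟩ hvl.symm) hvl2
        obtain ⟨z, hz1, hz2⟩ := hz
        refine ⟨z, hz1, ?_⟩
        rw [hwp]
        rcases (hpl z).2 hz2 with h | h
        · rw [h, pho p hpq]
        · rw [h, phq]
      · rw [f1o w hwp h3] at h5
        have hadj : H.Adj v w := by
          rcases h4 with h | ⟨h, _⟩ | ⟨h, _⟩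
          · exact h
          · exact absurd h hvp
          · exact absurd h hwp
        exact ⟨w, ⟨hadj, h5⟩, pho w h3⟩
  refine ⟨ctr H p q, f1, ?_, f1i, ?_, ?_⟩
  · rintro a b ⟨h1, h2, h3, h4⟩
    refine ⟨h1, h2, h3, ?_⟩
    rcases h4 with h | ⟨h, h'⟩ | ⟨h, h'⟩
    · exact Or.inl (hGH h)
    · exact Or.inr (Or.inl ⟨h, hGH h'⟩)
    · exact Or.inr (Or.inr ⟨h, hGH h'⟩)
  · intro v u hu w hw huw
    by_cases hvq : v = q
    · rw [hvq] at hu
      exact absurd rfl hu.1.2.1
    · obtain ⟨v', hv'⟩ := main v hvq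
      obtain ⟨z, hz, rfl⟩ := hv' u hu
      obtain ⟨z', hz', rfl⟩ := hv' w hw
      exact adj z z' (hP.cl v' z hz z' hz' (fun h => huw (by rw [h]))) huw
  · intro v
    by_cases hvq : v = q
    · have he : upper (ctr H p q) f1 v = ∅ := by
        ext u
        simp only [Set.mem_empty_iff_false, iff_false]
        intro hu
        rw [hvq] at hu
        exact hu.1.2.1 rfl
      rw [he, Set.ncard_empty]
      omega
    · obtain ⟨v', hv'⟩ := main v hvq
      have hsub : upper (ctr H p q) f1 v ⊆ ph '' (upper H f v') := by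
        intro w hw
        obtain ⟨z, hz, rfl⟩ := hv' w hw
        exact ⟨z, hz, rfl⟩
      exact ((Set.ncard_le_ncard hsub (Set.toFinite _)).trans
        (Set.ncard_image_le (Set.toFinite _))).trans (hP.card v')

end Pool.Agent.H48.ER
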