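import Pool.Agent.H48.ER.Asm
import Pool.Agent.H2.ER.CNH
import Pool.Agent.H20.ER.LEA
import Pool.Agent.H20.ER.PLN
import Pool.Agent.H20.ER.SB3
import Pool.Agent.H26.ER.PLM
import Pool.Agent.H29.ER.CLB
import Pool.Agent.H29.ER.PF
import Pool.Agent.H3.ER.M3
import Pool.Agent.H34.ER.HOL
import Pool.Agent.H34.ER.PYR
import Pool.Agent.H36.ER.TDN
import Pool.Agent.H36.ER.TSN
import Pool.Agent.H36.ER.W1
import Pool.Agent.H36.ER.W3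
import Pool.Agent.H36.ER.WLK
import Pool.Agent.H37.ER.CLA
import Pool.Agent.H37.ER.STB
import Pool.Agent.H4.ER.D3B
import Pool.Agent.H40.ER.SB2
import Pool.Agent.H45.ER.CLS
import Pool.Agent.H46.ER.ADD
import Pool.Agent.H48.ER.EC
import Pool.Agent.H50.ER.LIF
import Pool.Agent.H50.ER.PLL
import Pool.Agent.H50.ER.RER
import Pool.Agent.H50.ER.TWC
import Pool.Agent.H54.ER.ROT
import Pool.Agent.H55.ER.HCT
import Pool.Agent.H55.ER.HNP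
import Pool.Agent.H55.ER.IND
import Pool.Agent.H55.ER.TDC
import Pool.Agent.H56.ER.PL3
import Pool.Agent.H56.ER.PLA
import Pool.Agent.H61.ER.D3A
import Pool.Agent.H62.ER.M1
import Pool.Agent.H62.ER.SB1
import Pool.Agent.H72.ER.DEG
import Pool.Agent.H72.ER.DEL
import Pool.Agent.H72.ER.TSE
import Pool.Agent.H74.ER.PLB
import Pool.Agent.H75.ER.PLU
import Pool.Agent.H77.ER.CONX
import Pool.Agent.H77.ER.SPC
import Pool.Agent.H77.ER.SPI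
import Pool.Agent.H77.ER.TRI
import Pool.Agent.H81.ER.CLC
import Pool.Agent.H81.ER.HNO
import Pool.Agent.H91.ER.DES
import Pool.Agent.H91.ER.KB
import Pool.Agent.H94.ER.FST
import Pool.Agent.H98.ER.EVN
import Pool.Agent.H98.ER.TPN
import Pool.Agent.H99.ER.FIN
import Pool.Agent.H99.ER.W2

/-!
# MP_816b90_co: composition of the rows
-/

set_option autoImplicit false

namespace Pool.Agent.H48.ER

theorem c_ADD : T_ADD := Pool.Agent.H46.ER.pf_ADD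
theorem c_DEL : T_DEL := Pool.Agent.H72.ER.pf_DEL
theorem c_LIF : T_LIF := Pool.Agent.H50.ER.pf_LIF
theorem c_M1 : T_M1 := Pool.Agent.H62.ER.pf_M1 c_DEL c_LIF
theorem c_ROT : T_ROT := Pool.Agent.H54.ER.pf_ROT
theorem c_CNH : T_CNH := Pool.Agent.H2.ER.pf_CNH c_ROT
theorem c_FST : T_FST := Pool.Agent.H94.ER.pf_FST
theorem c_TSE : T_TSE := Pool.Agent.H72.ER.pf_TSE c_FST
theorem c_SPI : T_SPI := Pool.Agent.H77.ER.pf_SPI
theorem c_SPC : T_SPC := Pool.Agent.H77.ER.pf_SPC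
theorem c_W1 : T_W1 := Pool.Agent.H36.ER.pf_W1 c_SPI c_SPC
theorem c_W2 : T_W2 := Pool.Agent.H99.ER.pf_W2 c_SPI c_SPC
theorem c_TRI : T_TRI := Pool.Agent.H77.ER.pf_TRI
theorem c_HOL : T_HOL := Pool.Agent.H34.ER.pf_HOL
theorem c_PYR : T_PYR := Pool.Agent.H34.ER.pf_PYR c_HOL
theorem c_PLU : T_PLU := Pool.Agent.H75.ER.pf_PLU c_PYR
theorem c_PLN : T_PLN := Pool.Agent.H20.ER.pf_PLN c_TRI c_PYR
theorem c_PL3 : T_PL3 := Pool.Agent.H56.ER.pf_PL3 c_TRI c_PYR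
theorem c_STB : T_STB := Pool.Agent.H37.ER.pf_STB c_TRI c_PLU c_PLN c_PL3
theorem c_EVN : T_EVN := Pool.Agent.H98.ER.pf_EVN c_HOL
theorem c_RER : T_RER := Pool.Agent.H50.ER.pf_RER c_TRI c_EVN
theorem c_TSN : T_TSN := Pool.Agent.H36.ER.pf_TSN c_CNH c_TSE c_W1 c_W2 c_STB c_RER
theorem c_DEG : T_DEG := Pool.Agent.H72.ER.pf_DEG
theorem c_TPN : T_TPN := Pool.Agent.H98.ER.pf_TPN c_DEG c_W1 c_W2
theorem c_W3 : T_W3 := Pool.Agent.H36.ER.pf_W3 c_SPI c_SPC c_W1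
theorem c_TDN : T_TDN := Pool.Agent.H36.ER.pf_TDN c_DEG c_W1 c_W2 c_W3
theorem c_EC : T_EC := Pool.Agent.H48.ER.pf_EC
theorem c_TWC : T_TWC := Pool.Agent.H50.ER.pf_TWC c_EC c_ADD
theorem c_M3 : T_M3 := Pool.Agent.H3.ER.pf_M3 c_M1 c_CNH c_TSE c_TSN c_TPN c_TDN c_TWC
theorem c_DES : T_DES := Pool.Agent.H91.ER.pf_DES
theorem c_PF : T_PF := Pool.Agent.H29.ER.pf_PF
theorem c_PLA : T_PLA := Pool.Agent.H56.ER.pf_PLA c_PYR
theorem c_PLB : T_PLB := Pool.Agent.H74.ER.pf_PLB c_HOL c_EVN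
theorem c_CON : T_CON := Pool.Agent.H77.ER.pf_CON c_FST
theorem c_PLM : T_PLM := Pool.Agent.H26.ER.pf_PLM c_CON
theorem c_PLL : T_PLL := Pool.Agent.H50.ER.pf_PLL c_TRI c_PLU c_PLN c_PLA c_PLB c_PL3 c_PLM
theorem c_SB3 : T_SB3 := Pool.Agent.H20.ER.pf_SB3 c_PF c_PLL
theorem c_KB : T_KB := Pool.Agent.H91.ER.pf_KB
theorem c_CLS : T_CLS := Pool.Agent.H45.ER.pf_CLS c_DES c_KB c_PF
theorem c_CLA : T_CLA := Pool.Agent.H37.ER.pf_CLA c_M3 c_DES c_PF c_SB3 c_CLS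
theorem c_SB1 : T_SB1 := Pool.Agent.H62.ER.pf_SB1 c_DEG c_PF c_PLL
theorem c_CLB : T_CLB := Pool.Agent.H29.ER.pf_CLB c_M1 c_M3 c_DES c_DEG c_PF c_SB1 c_SB3
theorem c_SB2 : T_SB2 := Pool.Agent.H40.ER.pf_SB2 c_DEG c_PF
theorem c_CLC : T_CLC := Pool.Agent.H81.ER.pf_CLC c_M1 c_M3 c_DES c_DEG c_PF c_SB1 c_SB2 c_SB3 c_CLS
theorem c_D3A : T_D3A := Pool.Agent.H61.ER.pf_D3A
theorem c_D3B : T_D3B := Pool.Agent.H4.ER.pf_D3B c_FST c_TRI c_PYR c_EVN c_D3A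
theorem c_LEA : T_LEA := Pool.Agent.H20.ER.pf_LEA c_M3 c_D3B c_DEG c_DES
theorem c_FIN : T_FIN := Pool.Agent.H99.ER.pf_FIN c_DES c_PF c_CLA c_CLB c_CLC c_LEA
theorem c_WLK : T_WLK := Pool.Agent.H36.ER.pf_WLK
theorem c_HCT : T_HCT := Pool.Agent.H55.ER.pf_HCT c_WLK
theorem c_HNO : T_HNO := Pool.Agent.H81.ER.pf_HNO
theorem c_HNP : T_HNP := Pool.Agent.H55.ER.pf_HNP c_WLK
theorem c_IND : T_IND := Pool.Agent.H55.ER.pf_IND
theorem c_TDC : T_TDC := Pool.Agent.H55.ER.pf_TDC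

theorem c_THM : T_THM := pf_THM c_FIN

theorem c_MAIN : T_MAIN := pf_MAIN c_THM c_HNO c_HNP c_IND c_HCT c_TDC

end Pool.Agent.H48.ER
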