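import Pool.Agent.H48.ER.Lib

/-!
# MP_816b90_co: targets
-/

set_option autoImplicit false

namespace Pool.Agent.H48.ER

/-! ### L. Paths -/

/-- (FST) the first vertex of a path in a set `Z`. -/
def T_FST : Prop := ∀ (V : Type) (G : SimpleGraph V) (n : ℕ) (x y : V) (R Z : Set V),
  IP G n x y R → (R ∩ Z).Nonempty → ∃ (i j : ℕ) (g : V) (R1 R2 : Set V), IP G i x g R1 ∧
    IP G j g y R2 ∧ g ∈ Z ∧ i + j = n ∧ R1 ∪ R2 = R ∧ R1 ∩ R2 = {g} ∧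
    NE G (R1 \ {g}) (R2 \ {g}) ∧ ∀ w ∈ R1, w ∈ Z → w = g

/-- (TRI) the neighbours of a vertex on a path. -/
def T_TRI : Prop := ∀ (V : Type) (G : SimpleGraph V) (n : ℕ) (x y c : V) (R : Set V),
  IP G n x y R → c ∉ R → (∃ w ∈ R, G.Adj c w) →
    (∃ g, AU G c n x y R g) ∨ (∃ g g', AA G c n x y R g g') ∨ ∃ g g', AN G c n x y R g g'

/-- (CON) paths in connected sets. -/
def T_CON : Prop := ∀ (V : Type) (G : SimpleGraph V) (D : Set V) (x y : V), Cn G D → x ∈ D →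
  y ∈ D → ∃ (n : ℕ) (R : Set V), IP G n x y R ∧ R ⊆ D

/-- (HOL) holes consisting of two paths. -/
def T_HOL : Prop := ∀ (V : Type) (G : SimpleGraph V) (n m : ℕ) (x y z w : V) (R T : Set V),
  NOH G → IP G n x y R → IP G m z w T → Disjoint R T →
  (∀ a ∈ R, ∀ b ∈ T, G.Adj a b ↔ (a = x ∧ b = z) ∨ (a = y ∧ b = w)) → 2 ≤ n + m → Even (n + m)

/-- (ROT) rotation of a hole. -/
def T_ROT : Prop := ∀ (V : Type) (G : SimpleGraph V) (n : ℕ) (u v c : V) (R : Set V),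
  IP G n u v R → 2 ≤ n → c ∉ R → G.Adj c u → G.Adj c v →
  (∀ w ∈ R, G.Adj c w → w = u ∨ w = v) → ∀ w ∈ R, ∃ (u' v' : V) (R' : Set V),
    IP G n u' v' R' ∧ w ∉ R' ∧ insert w R' = insert c R ∧ G.Adj w u' ∧ G.Adj w v' ∧
    ∀ t ∈ R', G.Adj w t → t = u' ∨ t = v'

/-- (PYR) pyramids contain odd holes. -/
def T_PYR : Prop := ∀ (V : Type) (G : SimpleGraph V) (c : V) (b : Fin 3 → V) (m : Fin 3 → ℕ)
  (R : Fin 3 → Set V), NOH G → (∀ i, IP G (m i) c (b i) (R i)) → (∀ i, 1 ≤ m i) →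
  (∀ i j, i ≠ j → ¬ (m i = 1 ∧ m j = 1)) →
  (∀ i j, i ≠ j → ∀ u ∈ R i, ∀ v ∈ R j, u ≠ c → v ≠ c →
    u ≠ v ∧ (G.Adj u v ↔ u = b i ∧ v = b j)) → False

/-- (EVN) parity of the rungs. -/
def T_EVN : Prop := ∀ (V : Type) (G : SimpleGraph V) (a b : Fin 3 → V) (n : Fin 3 → ℕ)
  (P : Fin 3 → Set V), NOH G → Prism G a b n P → (∀ i j, Even (n i + n j)) ∧
  (NOP G → ∀ i, Even (n i))

/-- (DEG) the neighbours of a vertex of a prism in the prism. -/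
def T_DEG : Prop := ∀ (V : Type) (G : SimpleGraph V) (a b : Fin 3 → V) (n : Fin 3 → ℕ)
  (P : Fin 3 → Set V), Prism G a b n P →
  (∀ i, ∃ r ∈ P i, r ≠ a i ∧ ∀ g ∈ ver P, G.Adj (a i) g ↔ g = r ∨ ∃ j, j ≠ i ∧ g = a j) ∧
  (∀ i, ∃ r ∈ P i, r ≠ b i ∧ ∀ g ∈ ver P, G.Adj (b i) g ↔ g = r ∨ ∃ j, j ≠ i ∧ g = b j) ∧
  ∀ i, ∀ v ∈ P i, v ≠ a i → v ≠ b i → ∃ u ∈ P i, ∃ w ∈ P i, u ≠ w ∧ ¬ G.Adj u w ∧
    ∀ g ∈ ver P, G.Adj v g ↔ g = u ∨ g = w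

/-! ### C. Contraction of an even pair -/

/-- (CNH) no odd holes after the contraction. -/
def T_CNH : Prop := ∀ (V : Type) (G : SimpleGraph V) (p q : V), NOH G → EvP G p q →
  NOH (ctr G p q)

/-- (SPI) the new vertex is an interior vertex of a rung. -/
def T_SPI : Prop := ∀ (V : Type) (G : SimpleGraph V) (p q : V) (a b : Fin 3 → V)
  (n : Fin 3 → ℕ) (P : Fin 3 → Set V) (i : Fin 3), NOH G → NOP G → EvP G p q →
  Prism (ctr G p q) a b n P → (∀ i, Odd (n i)) → p ∈ P i → p ≠ a i → p ≠ b i →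
  q ∉ ver P ∧ ∃ (u w : V) (k m : ℕ) (L R : Set V), IP G k (a i) u L ∧ IP G m w (b i) R ∧ p ∉ L ∧
    p ∉ R ∧ P i = L ∪ {p} ∪ R ∧ k + m + 2 = n i ∧ Disjoint L R ∧ NE G L R ∧
    (((∀ g ∈ ver P, g ≠ p → (G.Adj p g ↔ g = u)) ∧ ∀ g ∈ ver P, g ≠ p → (G.Adj q g ↔ g = w)) ∨
      ((∀ g ∈ ver P, g ≠ p → (G.Adj q g ↔ g = u)) ∧ ∀ g ∈ ver P, g ≠ p → (G.Adj p g ↔ g = w)))

/-- (SPC) the new vertex is a corner. -/
def T_SPC : Prop := ∀ (V : Type) (G : SimpleGraph V) (p q : V) (a b : Fin 3 → V)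
  (n : Fin 3 → ℕ) (P : Fin 3 → Set V) (i : Fin 3), NOH G → NOP G → EvP G p q →
  Prism (ctr G p q) a b n P → (∀ i, Odd (n i)) → p = a i →
  q ∉ ver P ∧ ∃ (r : V) (m : ℕ) (R : Set V), IP G m r (b i) R ∧ p ∉ R ∧ P i = insert p R ∧
    m + 1 = n i ∧
    (((∀ g ∈ ver P, g ≠ p → (G.Adj p g ↔ ∃ j, j ≠ i ∧ g = a j)) ∧
        ∀ g ∈ ver P, g ≠ p → (G.Adj q g ↔ g = r)) ∨
      ((∀ g ∈ ver P, g ≠ p → (G.Adj q g ↔ ∃ j, j ≠ i ∧ g = a j)) ∧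
        ∀ g ∈ ver P, g ≠ p → (G.Adj p g ↔ g = r)))

/-- (W1) no common neighbour in the odd prism. -/
def T_W1 : Prop := ∀ (V : Type) (G : SimpleGraph V) (p q : V) (a b : Fin 3 → V)
  (n : Fin 3 → ℕ) (P : Fin 3 → Set V), NOH G → NOP G → EvP G p q →
  Prism (ctr G p q) a b n P → (∀ i, Odd (n i)) →
  p ∈ ver P ∧ q ∉ ver P ∧ ∀ c ∈ ver P, ¬ (G.Adj p c ∧ G.Adj q c)

/-- (W2) common neighbours outside of the odd prism. -/
def T_W2 : Prop := ∀ (V : Type) (G : SimpleGraph V) (p q : V) (a b : Fin 3 → V)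
  (n : Fin 3 → ℕ) (P : Fin 3 → Set V) (c : V), NOH G → NOP G → EvP G p q →
  Prism (ctr G p q) a b n P → (∀ i, Odd (n i)) → c ∉ ver P → G.Adj c p → G.Adj c q →
  ∃ g ∈ ver P, g ≠ p ∧ G.Adj c g

/-- (W3) a vertex with neighbours `p`, `q`, `y`. -/
def T_W3 : Prop := ∀ (V : Type) (G : SimpleGraph V) (p q : V) (a b : Fin 3 → V)
  (n : Fin 3 → ℕ) (P : Fin 3 → Set V) (v y : V), NOH G → NOP G → EvP G p q →
  Prism (ctr G p q) a b n P → (∀ i, Odd (n i)) → v ∉ ver P → G.Adj v p → G.Adj v q →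
  G.Adj v y → (∀ w, G.Adj v w → w = p ∨ w = q ∨ w = y) → y ∈ ver P → G.Adj p y → False

/-- (TSE) two neighbours of a vertex with stable neighbourhood are an even pair. -/
def T_TSE : Prop := ∀ (V : Type) (G : SimpleGraph V) (c p q : V), NOH G →
  (∀ u w, G.Adj c u → G.Adj c w → ¬ G.Adj u w) → G.Adj c p → G.Adj c q → p ≠ q → EvP G p q

/-- (STB) a vertex with stable neighbourhood and a prism. -/
def T_STB : Prop := ∀ (V : Type) (G : SimpleGraph V) (a b : Fin 3 → V) (n : Fin 3 → ℕ)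
  (P : Fin 3 → Set V) (c : V), NOH G → Prism G a b n P → c ∉ ver P →
  (∀ g ∈ ver P, ∀ h ∈ ver P, G.Adj c g → G.Adj c h → ¬ G.Adj g h) →
  ∀ (i j : Fin 3) (g h : V), g ∈ P i → h ∈ P j → G.Adj c g → G.Adj c h → i = j

/-- (RER) rerouting a rung. -/
def T_RER : Prop := ∀ (V : Type) (G : SimpleGraph V) (a b : Fin 3 → V) (n : Fin 3 → ℕ)
  (P : Fin 3 → Set V) (c g h : V) (i : Fin 3), NOH G → Prism G a b n P → c ∉ ver P →
  (∀ w ∈ ver P, G.Adj c w → w ∈ P i) →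
  (∀ u ∈ ver P, ∀ w ∈ ver P, G.Adj c u → G.Adj c w → ¬ G.Adj u w) → g ∈ P i → h ∈ P i →
  g ≠ h → G.Adj c g → G.Adj c h → ∃ (n' : Fin 3 → ℕ) (P' : Fin 3 → Set V),
    Prism G a b n' P' ∧ c ∈ ver P' ∧ ∀ j, Even (n' j + n j)

/-- (TSN) contraction in a stable neighbourhood. -/
def T_TSN : Prop := ∀ (V : Type) (G : SimpleGraph V) (c p q : V), NOH G → NOP G →
  (∀ u w, G.Adj c u → G.Adj c w → ¬ G.Adj u w) → G.Adj c p → G.Adj c q → p ≠ q →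
  NOP (ctr G p q)

/-- (TPN) contraction if the neighbourhood is a path with three vertices. -/
def T_TPN : Prop := ∀ (V : Type) (G : SimpleGraph V) (v x y z : V), NOH G → NOP G →
  (∀ w, G.Adj v w ↔ w = x ∨ w = y ∨ w = z) → G.Adj x y → G.Adj y z → x ≠ z → ¬ G.Adj x z →
  EvP G x z ∧ NOP (ctr G x z)

/-- (TDN) contraction if the neighbourhood has exactly one edge. -/
def T_TDN : Prop := ∀ (V : Type) (G : SimpleGraph V) (v x y z : V), NOH G → NOP G →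
  (∀ w, G.Adj v w ↔ w = x ∨ w = y ∨ w = z) → G.Adj x y → ¬ G.Adj x z → ¬ G.Adj y z →
  EvP G x z → NOP (ctr G x z)

/-! ### D. Vertices of degree three -/

/-- (D3A) the paths. -/
def T_D3A : Prop := ∀ (V : Type) (G : SimpleGraph V) (v x y z : V), NOH G →
  (∀ w, G.Adj v w ↔ w = x ∨ w = y ∨ w = z) → G.Adj x y → ¬ G.Adj x z → ¬ G.Adj y z →
  x ≠ z → ¬ EvP G x z → ∃ (n : ℕ) (R : Set V), IP G n y z R ∧ 2 ≤ n ∧ Even n ∧ v ∉ R ∧ x ∉ R ∧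
    ∀ w ∈ R, G.Adj x w → w = y

/-- (D3B) the even prism. -/
def T_D3B : Prop := ∀ (V : Type) (G : SimpleGraph V) (v x y z : V), NOH G → NOP G →
  (∀ w, G.Adj v w ↔ w = x ∨ w = y ∨ w = z) → G.Adj x y → ¬ G.Adj x z → ¬ G.Adj y z →
  x ≠ z → y ≠ z → ¬ EvP G x z → ¬ EvP G y z →
  ∃ (a b : Fin 3 → V) (n : Fin 3 → ℕ) (P : Fin 3 → Set V), EPr G a b n P ∧ a 0 = v ∧ a 1 = x ∧
    a 2 = y ∧ z ∈ P 0

/-! ### E. Attachments to a prism -/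

/-- (PLU) both attachments are single vertices. -/
def T_PLU : Prop := ∀ (V : Type) (G : SimpleGraph V) (a b : Fin 3 → V) (n : Fin 3 → ℕ)
  (P : Fin 3 → Set V) (i j : Fin 3) (l : ℕ) (d d' g h : V) (R : Set V), NOH G →
  Prism G a b n P → i ≠ j → Cnr G P i j l d d' R → AU G d (n i) (a i) (b i) (P i) g →
  AU G d' (n j) (a j) (b j) (P j) h →
  (G.Adj d (a i) ∧ G.Adj d' (a j)) ∨ (G.Adj d (b i) ∧ G.Adj d' (b j))

/-- (PLN) the attachment on the rung `i` contains two vertices which are not adjacent. -/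
def T_PLN : Prop := ∀ (V : Type) (G : SimpleGraph V) (a b : Fin 3 → V) (n : Fin 3 → ℕ)
  (P : Fin 3 → Set V) (i j : Fin 3) (l : ℕ) (d d' g g' h : V) (R : Set V), NOH G →
  Prism G a b n P → i ≠ j → Cnr G P i j l d d' R → AN G d (n i) (a i) (b i) (P i) g g' →
  h ∈ P j → G.Adj d' h →
  (G.Adj d (a i) ∧ G.Adj d' (a j)) ∨ (G.Adj d (b i) ∧ G.Adj d' (b j))

/-- (PLA) an adjacent pair and a single vertex. -/
def T_PLA : Prop := ∀ (V : Type) (G : SimpleGraph V) (a b : Fin 3 → V) (n : Fin 3 → ℕ)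
  (P : Fin 3 → Set V) (i j : Fin 3) (l : ℕ) (d d' g g' h : V) (R : Set V), NOH G →
  Prism G a b n P → i ≠ j → Cnr G P i j l d d' R → AA G d (n i) (a i) (b i) (P i) g g' →
  AU G d' (n j) (a j) (b j) (P j) h →
  (G.Adj d (a i) ∧ G.Adj d' (a j)) ∨ (G.Adj d (b i) ∧ G.Adj d' (b j))

/-- (PLB) two adjacent pairs. -/
def T_PLB : Prop := ∀ (V : Type) (G : SimpleGraph V) (a b : Fin 3 → V) (n : Fin 3 → ℕ)
  (P : Fin 3 → Set V) (i j : Fin 3) (l : ℕ) (d d' g g' h h' : V) (R : Set V), NOH G → NOP G →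
  EPr G a b n P → i ≠ j → Cnr G P i j l d d' R → AA G d (n i) (a i) (b i) (P i) g g' →
  AA G d' (n j) (a j) (b j) (P j) h h' →
  (G.Adj d (a i) ∧ G.Adj d' (a j)) ∨ (G.Adj d (b i) ∧ G.Adj d' (b j))

/-- (PL3) a vertex with neighbours on all rungs. -/
def T_PL3 : Prop := ∀ (V : Type) (G : SimpleGraph V) (a b : Fin 3 → V) (n : Fin 3 → ℕ)
  (P : Fin 3 → Set V) (d : V), NOH G → Prism G a b n P → d ∉ ver P →
  (∀ i, ∃ g ∈ P i, G.Adj d g) → (∃ i j, i ≠ j ∧ G.Adj d (a i) ∧ G.Adj d (a j)) ∨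
    ∃ i j, i ≠ j ∧ G.Adj d (b i) ∧ G.Adj d (b j)

/-- (PLM) shortest connections between rungs. -/
def T_PLM : Prop := ∀ (V : Type) (G : SimpleGraph V) (P : Fin 3 → Set V) (D : Set V),
  (∀ i j, i ≠ j → Disjoint (P i) (P j)) → Cn G D → Disjoint D (ver P) →
  (∃ i j, i ≠ j ∧ (∃ d ∈ D, ∃ g ∈ P i, G.Adj d g) ∧ ∃ d ∈ D, ∃ g ∈ P j, G.Adj d g) →
  (∃ d ∈ D, ∀ i, ∃ g ∈ P i, G.Adj d g) ∨ ∃ (i j : Fin 3) (l : ℕ) (d d' : V) (R : Set V),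
    i ≠ j ∧ Cnr G P i j l d d' R ∧ R ⊆ D ∧ (∃ g ∈ P i, G.Adj d g) ∧ ∃ g ∈ P j, G.Adj d' g

/-- (PLL) attachments of a connected set to an even prism. -/
def T_PLL : Prop := ∀ (V : Type) (G : SimpleGraph V) (a b : Fin 3 → V) (n : Fin 3 → ℕ)
  (P : Fin 3 → Set V) (D : Set V), NOH G → NOP G → EPr G a b n P → Cn G D →
  Disjoint D (ver P) →
  (∃ i j, i ≠ j ∧ (∃ d ∈ D, ∃ g ∈ P i, G.Adj d g) ∧ ∃ d ∈ D, ∃ g ∈ P j, G.Adj d g) →
  (∃ i j, i ≠ j ∧ (∃ d ∈ D, G.Adj d (a i)) ∧ ∃ d ∈ D, G.Adj d (a j)) ∨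
    ∃ i j, i ≠ j ∧ (∃ d ∈ D, G.Adj d (b i)) ∧ ∃ d ∈ D, G.Adj d (b j)

/-! ### G. Treewidth -/

/-- (EC) contraction of an edge. -/
def T_EC : Prop := ∀ (V : Type) [Finite V] (G : SimpleGraph V) (p q : V), Tw3 G → G.Adj p q →
  Tw3 (ctr G p q)

/-- (ADD) a new vertex joined to a clique with at most three elements. -/
def T_ADD : Prop := ∀ (V : Type) [Finite V] (G : SimpleGraph V) (v : V) (N : Set V), Tw3 G →
  (∀ w, ¬ G.Adj v w) → v ∉ N → N.ncard ≤ 3 → (∀ u ∈ N, ∀ w ∈ N, u ≠ w → G.Adj u w) →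
  Tw3 (att G v N)

/-- (TWC) contraction of two neighbours of a vertex of degree at most three. -/
def T_TWC : Prop := ∀ (V : Type) [Finite V] (G : SimpleGraph V) (v x y z : V), Tw3 G →
  G.Adj v x → G.Adj v z → x ≠ z → (∀ w, G.Adj v w → w = x ∨ w = y ∨ w = z) →
  Tw3 (ctr G x z)

/-! ### M. Minimal counterexamples -/

/-- (DEL) deletion of a vertex. -/
def T_DEL : Prop := ∀ (V : Type) (G : SimpleGraph V) (v : V), NOH G → NOP G →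
  NOH (del G v) ∧ NOP (del G v)

/-- (LIF) adding a vertex whose neighbourhood is a clique. -/
def T_LIF : Prop := ∀ (V : Type) (G : SimpleGraph V) (S : Set V) (v : V), Sup G S → v ∈ S →
  (∀ u w, G.Adj v u → G.Adj v w → u ≠ w → G.Adj u w) → CT (del G v) (S \ {v}) → CT G S

/-- (M1) no simplicial vertices, no nested neighbourhoods. -/
def T_M1 : Prop := ∀ (V : Type) [Finite V] (G : SimpleGraph V) (S : Set V), MC G S →
  (∀ v ∈ S, ∃ u w, G.Adj v u ∧ G.Adj v w ∧ u ≠ w ∧ ¬ G.Adj u w) ∧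
  ∀ u ∈ S, ∀ v ∈ S, u ≠ v → ¬ G.Adj u v → ∃ w, G.Adj u w ∧ ¬ G.Adj v w

/-- (M3) vertices of degree at most three. -/
def T_M3 : Prop := ∀ (V : Type) [Finite V] (G : SimpleGraph V) (S : Set V) (v x y z : V),
  MC G S → v ∈ S → (∀ w, G.Adj v w → w = x ∨ w = y ∨ w = z) →
  ∃ x y z, (∀ w, G.Adj v w ↔ w = x ∨ w = y ∨ w = z) ∧ x ≠ z ∧ y ≠ z ∧ G.Adj x y ∧
    ¬ G.Adj x z ∧ ¬ G.Adj y z ∧ ¬ EvP G x z ∧ ¬ EvP G y z

/-! ### F. The elimination tree of a minimal counterexample -/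

/-- (DES) descendants. -/
def T_DES : Prop := ∀ (V : Type) [Finite V] (H : SimpleGraph V) (f : V → ℕ), PEO H f → ∀ t : V,
  (∀ u ∈ dn H f t, f u ≤ f t) ∧
  (∀ u ∈ dn H f t, ∀ w, H.Adj u w → w ∈ dn H f t ∨ w ∈ upper H f t) ∧
  (∀ u, par H f u t → u ∈ dn H f t ∧ f u < f t ∧ t ∈ upper H f u ∧
    upper H f u ⊆ insert t (upper H f t)) ∧
  (∀ w, H.Adj t w → f w < f t → ∃ u, par H f u t ∧ w ∈ dn H f u) ∧
  (∀ w, w ∈ dn H f t ↔ w = t ∨ ∃ u, par H f u t ∧ w ∈ dn H f u) ∧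
  ∀ u u', par H f u t → par H f u' t → u ≠ u' → Disjoint (dn H f u) (dn H f u')

/-- (KB) the part of the prism behind `Q`. -/
def T_KB : Prop := ∀ (V : Type) (G : SimpleGraph V) (a b : Fin 3 → V) (n : Fin 3 → ℕ)
  (P : Fin 3 → Set V) (c : Fin 3 → V) (J : Finset (Fin 3)) (D Q : Set V),
  Pc G a b n P c J D Q → (∀ i, b i ∈ kb P D Q) ∧ (∀ q ∈ Q, ∃ h ∈ kb P D Q, G.Adj q h) ∧
  (∀ X : Set V, (∃ h ∈ kb P D Q, h ∈ X) →
    (∀ u ∈ X, u ∈ kb P D Q → ∀ w ∈ kb P D Q, G.Adj u w → w ∈ X) → kb P D Q ⊆ X) ∧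
  ((kb P D Q).ncard ≤ 3 → J = Finset.univ ∧ (∀ i, G.Adj (c i) (b i)) ∧
    kb P D Q = {v | ∃ i, v = b i})

/-- (PF) elementary facts on pieces. -/
def T_PF : Prop := ∀ (V : Type) (G : SimpleGraph V) (a b : Fin 3 → V) (n : Fin 3 → ℕ)
  (P : Fin 3 → Set V) (c : Fin 3 → V) (J : Finset (Fin 3)) (D Q : Set V),
  Pc G a b n P c J D Q →
  (∀ q ∈ Q, ∀ q' ∈ Q, G.Adj q q' → ∃ i j, i ∉ J ∧ j ∉ J ∧ q = a i ∧ q' = a j) ∧
  Q.ncard = 3 ∧ D.ncard = J.card ∧ (∀ i, b i ∉ Q ∧ b i ∉ D) ∧ (∀ i, c i ≠ a i ∧ c i ≠ b i) ∧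
  Disjoint D Q ∧ D ⊆ ver P ∧ Q ⊆ ver P ∧
  (∀ q ∈ Q, ∀ q' ∈ Q, q ≠ q' → ∃ i j, i ≠ j ∧ q ∈ P i ∧ q' ∈ P j) ∧
  (∀ h ∈ D, ∀ w, G.Adj h w → w ∈ D ∨ w ∈ Q) ∧ (∀ q ∈ Q, ∃ h ∈ D, G.Adj h q) ∧
  (∀ h ∈ D, ∀ h' ∈ D, h ≠ h' → G.Adj h h') ∧ Cn G D ∧
  ∀ h ∈ D, ∃ x y z, x ≠ y ∧ x ≠ z ∧ y ≠ z ∧ ∀ w, G.Adj h w ↔ w = x ∨ w = y ∨ w = z

/-- (SB1) another piece is inside or outside of the prism. -/
def T_SB1 : Prop := ∀ (V : Type) (G : SimpleGraph V) (a b : Fin 3 → V) (n : Fin 3 → ℕ)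
  (P : Fin 3 → Set V) (c : Fin 3 → V) (J : Finset (Fin 3)) (D Q D' Q' : Set V) (t : V),
  NOH G → NOP G → Sib G a b n P c J D Q D' Q' t → Q' ⊆ ver P → (∃ h ∈ D', h ∈ ver P) →
  D' ⊆ ver P

/-- (SB2) another piece inside of the prism. -/
def T_SB2 : Prop := ∀ (V : Type) (G : SimpleGraph V) (a b : Fin 3 → V) (n : Fin 3 → ℕ)
  (P : Fin 3 → Set V) (c : Fin 3 → V) (J : Finset (Fin 3)) (D Q D' Q' : Set V) (t : V),
  Sib G a b n P c J D Q D' Q' t → Q' ⊆ ver P → D' ⊆ ver P → ∃ i, i ∈ J ∧ t = c i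

/-- (SB3) another piece outside of the prism. -/
def T_SB3 : Prop := ∀ (V : Type) (G : SimpleGraph V) (a b : Fin 3 → V) (n : Fin 3 → ℕ)
  (P : Fin 3 → Set V) (c : Fin 3 → V) (J : Finset (Fin 3)) (D Q D' Q' : Set V) (t : V),
  NOH G → NOP G → Sib G a b n P c J D Q D' Q' t → Disjoint D' (ver P) →
  ∃ (k : Fin 3) (v' : V), J = {k} ∧ D' = {v'} ∧ (∀ i, i ≠ k → a i ∈ Q') ∧
    ∀ w, G.Adj v' w ↔ w ∈ Q'

/-- (CLS) if the prism does not continue above `t` then it is closed by another piece. -/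
def T_CLS : Prop := ∀ (V : Type) [Finite V] (G : SimpleGraph V) (S : Set V) (H : SimpleGraph V)
  (f : V → ℕ) (t u : V) (a b : Fin 3 → V) (n : Fin 3 → ℕ) (P : Fin 3 → Set V) (c : Fin 3 → V)
  (J : Finset (Fin 3)), Ctx G S H f →
  (∀ u, par H f u t → IsPc G (dn H f u) (upper H f u)) → par H f u t →
  Pc G a b n P c J (dn H f u) (upper H f u) →
  (∀ s ∈ upper H f t, s ∉ kb P (dn H f u) (upper H f u)) →
  J = Finset.univ ∧ (∀ i, G.Adj (c i) (b i)) ∧ ∃ u', par H f u' t ∧ u' ≠ u ∧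
    dn H f u' = kb P (dn H f u) (upper H f u) ∧
    kb P (dn H f u) (upper H f u) = {v | ∃ i, v = b i}

/-- (CLA) first case of CLI. -/
def T_CLA : Prop := ∀ (V : Type) [Finite V] (G : SimpleGraph V) (S : Set V) (H : SimpleGraph V)
  (f : V → ℕ) (t u : V) (a b : Fin 3 → V) (n : Fin 3 → ℕ) (P : Fin 3 → Set V) (c : Fin 3 → V)
  (J : Finset (Fin 3)) (i : Fin 3), Ctx G S H f → t ∈ S →
  (∀ u, par H f u t → IsPc G (dn H f u) (upper H f u)) → par H f u t →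
  Pc G a b n P c J (dn H f u) (upper H f u) → i ∈ J → t = c i →
  (∀ s ∈ upper H f t, s ∉ kb P (dn H f u) (upper H f u)) → False

/-- (CLB) second case of CLI. -/
def T_CLB : Prop := ∀ (V : Type) [Finite V] (G : SimpleGraph V) (S : Set V) (H : SimpleGraph V)
  (f : V → ℕ) (t u : V) (a b : Fin 3 → V) (n : Fin 3 → ℕ) (P : Fin 3 → Set V) (c : Fin 3 → V)
  (J : Finset (Fin 3)) (i : Fin 3) (s : V), Ctx G S H f → t ∈ S →
  (∀ u, par H f u t → IsPc G (dn H f u) (upper H f u)) → par H f u t →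
  Pc G a b n P c J (dn H f u) (upper H f u) → i ∈ J → t = c i →
  s ∈ upper H f t → s ∈ kb P (dn H f u) (upper H f u) → False

/-- (CLC) the piece of `t` if `t` is a corner of the prism of the child `u`. -/
def T_CLC : Prop := ∀ (V : Type) [Finite V] (G : SimpleGraph V) (S : Set V) (H : SimpleGraph V)
  (f : V → ℕ) (t u : V) (a b : Fin 3 → V) (n : Fin 3 → ℕ) (P : Fin 3 → Set V) (c : Fin 3 → V)
  (J : Finset (Fin 3)) (i : Fin 3), Ctx G S H f → t ∈ S →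
  (∀ u, par H f u t → IsPc G (dn H f u) (upper H f u)) → par H f u t →
  Pc G a b n P c J (dn H f u) (upper H f u) → i ∉ J → t = a i →
  IsPc G (dn H f t) (upper H f t)

/-- (LEA) the leaves. -/
def T_LEA : Prop := ∀ (V : Type) [Finite V] (G : SimpleGraph V) (S : Set V) (H : SimpleGraph V)
  (f : V → ℕ) (t : V), Ctx G S H f → t ∈ S → (∀ u, ¬ par H f u t) →
  IsPc G (dn H f t) (upper H f t)

/-- (FIN) there is no minimal counterexample. -/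
def T_FIN : Prop := ∀ (V : Type) [Finite V] (G : SimpleGraph V) (S : Set V), ¬ MC G S

/-- (THM) the internal form of the theorem. -/
def T_THM : Prop := ∀ (V : Type) [Finite V] (G : SimpleGraph V) (S : Set V), Sup G S → NOH G →
  NOP G → Tw3 G → CT G S

/-! ### H. Connection with the problem -/

/-- no odd hole, in the form of the problem -/
def NoOddHole {m : ℕ} (G : SimpleGraph (Fin m)) : Prop :=
  ¬ ∃ k : ℕ, 5 ≤ k ∧ k % 2 = 1 ∧ Nonempty (SimpleGraph.cycleGraph k ↪g G)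

/-- no antihole with at least five vertices, in the form of the problem -/
def NoAntihole {m : ℕ} (G : SimpleGraph (Fin m)) : Prop :=
  ¬ ∃ k : ℕ, 5 ≤ k ∧ Nonempty ((SimpleGraph.cycleGraph k)ᶜ ↪g G)

/-- no odd prism, in the form of the problem -/
def NoOddPrism {m : ℕ} (G : SimpleGraph (Fin m)) : Prop :=
  ¬ ∃ (a1 a2 a3 b1 b2 b3 : Fin m) (p1 : G.Walk a1 b1) (p2 : G.Walk a2 b2) (p3 : G.Walk a3 b3),
    p1.IsPath ∧ p2.IsPath ∧ p3.IsPath ∧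
    p1.length % 2 = 1 ∧ p2.length % 2 = 1 ∧ p3.length % 2 = 1 ∧
    (∀ w : Fin m, w ∈ p1.support → w ∉ p2.support) ∧
    (∀ w : Fin m, w ∈ p1.support → w ∉ p3.support) ∧
    (∀ w : Fin m, w ∈ p2.support → w ∉ p3.support) ∧
    ∀ u v : Fin m,
      (u ∈ p1.support ∨ u ∈ p2.support ∨ u ∈ p3.support) →
      (v ∈ p1.support ∨ v ∈ p2.support ∨ v ∈ p3.support) →
      (G.Adj u v ↔
        (p1.toSubgraph.Adj u v ∨ p2.toSubgraph.Adj u v ∨ p3.toSubgraph.Adj u v ∨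
         (u ≠ v ∧ (u = a1 ∨ u = a2 ∨ u = a3) ∧ (v = a1 ∨ v = a2 ∨ v = a3)) ∨
         (u ≠ v ∧ (u = b1 ∨ u = b2 ∨ u = b3) ∧ (v = b1 ∨ v = b2 ∨ v = b3))))

/-- the closure property of the class of contractile graphs, in the form of the problem -/
def Clo (P : (k : ℕ) → SimpleGraph (Fin k) → Prop) : Prop :=
  (∀ k : ℕ, P k (⊤ : SimpleGraph (Fin k))) ∧
  (∀ (k : ℕ) (H : SimpleGraph (Fin (k+1))) (x y : Fin (k+1)) (φ : Fin (k+1) → Fin k),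
    x ≠ y → ¬ H.Adj x y →
    (∀ p : H.Walk x y, p.IsPath →
      (∀ i j : ℕ, i + 1 < j → j ≤ p.length → ¬ H.Adj (p.getVert i) (p.getVert j)) →
      p.length % 2 = 0) →
    Function.Surjective φ →
    (∀ u v : Fin (k+1), φ u = φ v ↔ (u = v ∨ (u = x ∧ v = y) ∨ (u = y ∧ v = x))) →
    P k (SimpleGraph.fromRel (fun a b : Fin k => ∃ u v : Fin (k+1), φ u = a ∧ φ v = b ∧
      H.Adj u v)) →
    P (k+1) H)

/-- (HNO) odd holes. -/
def T_HNO : Prop := ∀ (m : ℕ) (G : SimpleGraph (Fin m)), NoOddHole G → NOH G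

/-- (HNP) odd prisms. -/
def T_HNP : Prop := ∀ (m : ℕ) (G : SimpleGraph (Fin m)), NoOddPrism G → NOP G

/-- (WLK) chordless walks and paths. -/
def T_WLK : Prop := ∀ (V : Type) (G : SimpleGraph V) (x y : V),
  (∀ p : G.Walk x y, p.IsPath →
    (∀ i j : ℕ, i + 1 < j → j ≤ p.length → ¬ G.Adj (p.getVert i) (p.getVert j)) →
    IP G p.length x y {v | v ∈ p.support}) ∧
  ∀ (n : ℕ) (R : Set V), IP G n x y R → ∃ p : G.Walk x y, p.IsPath ∧ p.length = n ∧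
    (∀ v, v ∈ p.support ↔ v ∈ R) ∧
    (∀ i j : ℕ, i + 1 < j → j ≤ p.length → ¬ G.Adj (p.getVert i) (p.getVert j)) ∧
    ∀ u ∈ R, ∀ v ∈ R, p.toSubgraph.Adj u v ↔ G.Adj u v

/-- (HCT) contraction sequences. -/
def T_HCT : Prop := ∀ (m : ℕ) (G : SimpleGraph (Fin m)), CT G Set.univ →
  ∀ P : (k : ℕ) → SimpleGraph (Fin k) → Prop, Clo P → P m G

/-- (IND) induced subgraphs. -/
def T_IND : Prop := ∀ (V W : Type) [Finite V] [Finite W] (G : SimpleGraph V) (e : W ↪ V),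
  NOH G → NOP G → Tw3 G → NOH (G.comap e) ∧ NOP (G.comap e) ∧ Tw3 (G.comap e)

/-- treewidth at most three: there is a tree decomposition with bags of size at most four -/
def TreewidthLE3 {m : ℕ} (G : SimpleGraph (Fin m)) : Prop :=
  ∃ (k : ℕ) (T : SimpleGraph (Fin k)) (B : Fin k → Finset (Fin m)), T.IsTree ∧
    (∀ i, (B i).card ≤ 4) ∧ (∀ v, ∃ i, v ∈ B i) ∧ (∀ u v, G.Adj u v → ∃ i, u ∈ B i ∧ v ∈ B i) ∧
    ∀ v, (T.induce {i | v ∈ B i}).Preconnected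

/-- (TDC) tree decompositions. -/
def T_TDC : Prop := ∀ (m : ℕ) (G : SimpleGraph (Fin m)), TreewidthLE3 G → Tw3 G

/-- perfectly contractile, in the form of the problem -/
def PerfCon {m : ℕ} (G : SimpleGraph (Fin m)) : Prop :=
  ∀ (k : ℕ) (e : Fin k ↪ Fin m) (P : (k : ℕ) → SimpleGraph (Fin k) → Prop), Clo P →
    P k (SimpleGraph.comap (fun i : Fin k => e i) G)

/-- the theorem -/
def T_MAIN : Prop := ∀ (m : ℕ) (G : SimpleGraph (Fin m)), TreewidthLE3 G → NoOddHole G →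
  NoOddPrism G → PerfCon G

end Pool.Agent.H48.ER
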