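import Pool.Agent.H48.ER.Targets

/-!
# MP_816b90_co: composition
-/

set_option autoImplicit false

namespace Pool.Agent.H48.ER

theorem pf_THM (hFIN : T_FIN) : T_THM := by
  intro V _ G S hS h1 h2 h3
  have key : ∀ (N : ℕ) (G : SimpleGraph V) (S : Set V), Sup G S → NOH G → NOP G → Tw3 G →
      S.ncard = N → CT G S := by
    intro N
    induction N using Nat.strong_induction_on with
    | _ N ih =>
      intro G S hS h1 h2 h3 hN
      by_contra hct
      exact hFIN V G S ⟨hS, h1, h2, h3, hct, fun G' S' a1 a2 a3 a4 hlt =>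
        ih _ (hN ▸ hlt) G' S' a1 a2 a3 a4 rfl⟩
  exact key _ G S hS h1 h2 h3 rfl

theorem pf_MAIN (hTHM : T_THM) (hHNO : T_HNO) (hHNP : T_HNP) (hIND : T_IND) (hHCT : T_HCT)
    (hTDC : T_TDC) : T_MAIN := by
  intro m G htw h1 h2 k e P hP
  obtain ⟨a1, a2, a3⟩ := hIND (Fin m) (Fin k) G e (hHNO m G h1) (hHNP m G h2) (hTDC m G htw)
  exact hHCT k _ (hTHM (Fin k) _ Set.univ (fun _ _ _ => ⟨trivial, trivial⟩) a1 a2 a3) P hP

end Pool.Agent.H48.ER
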