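import Mathlib

/-!
# MP_816b90_co: even pair contractions, chordless paths, prisms. Definitions.

The vertex type `V` is fixed; deleted vertices are isolated vertices.
-/

set_option autoImplicit false

namespace Pool.Agent.H48.ER

variable {V : Type}

/-- `R` is the vertex set of a chordless path with `n` edges from `x` to `y` -/
def IP (G : SimpleGraph V) (n : ℕ) (x y : V) (R : Set V) : Prop :=
  ∃ g : ℕ → V, g 0 = x ∧ g n = y ∧ (∀ i j, i ≤ n → j ≤ n → g i = g j → i = j) ∧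
    (∀ i j, i ≤ n → j ≤ n → (G.Adj (g i) (g j) ↔ i + 1 = j ∨ j + 1 = i)) ∧
    R = {v | ∃ i, i ≤ n ∧ g i = v}

/-- the only edge between `R` and `T` is `u v` -/
def XE (G : SimpleGraph V) (R T : Set V) (u v : V) : Prop :=
  ∀ a ∈ R, ∀ b ∈ T, G.Adj a b ↔ a = u ∧ b = v

/-- no edges between `R` and `T` -/
def NE (G : SimpleGraph V) (R T : Set V) : Prop := ∀ a ∈ R, ∀ b ∈ T, ¬ G.Adj a b

/-- `G` has no odd hole: the hole consists of the vertex `c` and of the path `R` -/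
def NOH (G : SimpleGraph V) : Prop :=
  ∀ (n : ℕ) (u v c : V) (R : Set V), IP G n u v R → 2 ≤ n → c ∉ R → G.Adj c u → G.Adj c v →
    (∀ w ∈ R, G.Adj c w → w = u ∨ w = v) → Even n

/-- a prism with rungs `P i` from `a i` to `b i` with `n i` edges -/
structure Prism (G : SimpleGraph V) (a b : Fin 3 → V) (n : Fin 3 → ℕ) (P : Fin 3 → Set V) :
    Prop where
  ip : ∀ i, IP G (n i) (a i) (b i) (P i)
  pos : ∀ i, 1 ≤ n i
  dis : ∀ i j, i ≠ j → Disjoint (P i) (P j)
  adj : ∀ i j, i ≠ j → ∀ u ∈ P i, ∀ v ∈ P j,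
    G.Adj u v ↔ (u = a i ∧ v = a j) ∨ (u = b i ∧ v = b j)

/-- the vertex set of a prism -/
def ver (P : Fin 3 → Set V) : Set V := {v | ∃ i, v ∈ P i}

/-- `G` has no odd prism -/
def NOP (G : SimpleGraph V) : Prop :=
  ∀ (a b : Fin 3 → V) (n : Fin 3 → ℕ) (P : Fin 3 → Set V), Prism G a b n P → ¬ ∀ i, Odd (n i)

/-- `G` contains an even prism with these rungs -/
def EPr (G : SimpleGraph V) (a b : Fin 3 → V) (n : Fin 3 → ℕ) (P : Fin 3 → Set V) : Prop :=
  Prism G a b n P ∧ ∀ i, Even (n i)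

/-- `p`, `q` is an even pair -/
def EvP (G : SimpleGraph V) (p q : V) : Prop :=
  p ≠ q ∧ ¬ G.Adj p q ∧ ∀ (n : ℕ) (R : Set V), IP G n p q R → Even n

/-- contraction of `p` and `q`: the new vertex is `p`, and `q` becomes an isolated vertex -/
def ctr (G : SimpleGraph V) (p q : V) : SimpleGraph V where
  Adj a b := a ≠ b ∧ a ≠ q ∧ b ≠ q ∧ (G.Adj a b ∨ (a = p ∧ G.Adj q b) ∨ (b = p ∧ G.Adj a q))
  symm := ⟨by
    rintro a b ⟨h1, h2, h3, h4⟩
    refine ⟨h1.symm, h3, h2, ?_⟩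
    rcases h4 with h | ⟨h, h'⟩ | ⟨h, h'⟩
    · exact Or.inl h.symm
    · exact Or.inr (Or.inr ⟨h, h'.symm⟩)
    · exact Or.inr (Or.inl ⟨h, h'.symm⟩)⟩
  loopless := ⟨fun a h => h.1 rfl⟩

/-- deletion of a vertex (it becomes isolated) -/
def del (G : SimpleGraph V) (v : V) : SimpleGraph V where
  Adj a b := a ≠ v ∧ b ≠ v ∧ G.Adj a b
  symm := ⟨fun _ _ h => ⟨h.2.1, h.1, h.2.2.symm⟩⟩
  loopless := ⟨fun _ h => G.loopless.irrefl _ h.2.2⟩

/-- the edges of `G` are inside `S` -/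
def Sup (G : SimpleGraph V) (S : Set V) : Prop := ∀ u v, G.Adj u v → u ∈ S ∧ v ∈ S

/-- the graph `G` on `S` can be turned into a complete graph by contractions of even pairs -/
inductive CT : SimpleGraph V → Set V → Prop
  | clique (G : SimpleGraph V) (S : Set V) (h : ∀ u ∈ S, ∀ v ∈ S, u ≠ v → G.Adj u v) : CT G S
  | step (G : SimpleGraph V) (S : Set V) (p q : V) (hp : p ∈ S) (hq : q ∈ S) (h : EvP G p q)
      (hc : CT (ctr G p q) (S \ {q})) : CT G S

/-- the neighbours of `v` which come later in the order `f` -/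
def upper (H : SimpleGraph V) (f : V → ℕ) (v : V) : Set V := {u | H.Adj v u ∧ f v < f u}

/-- `f` is an elimination order of `H` such that the later neighbours of every vertex are a clique
with at most three elements -/
structure PEO (H : SimpleGraph V) (f : V → ℕ) : Prop where
  inj : Function.Injective f
  cl : ∀ v, ∀ u ∈ upper H f v, ∀ w ∈ upper H f v, u ≠ w → H.Adj u w
  card : ∀ v, (upper H f v).ncard ≤ 3

/-- treewidth at most three (subgraph of a graph with such an elimination order) -/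
def Tw3 (G : SimpleGraph V) : Prop := ∃ (H : SimpleGraph V) (f : V → ℕ), G ≤ H ∧ PEO H f

/-- a counterexample with the smallest number of vertices -/
structure MC [Finite V] (G : SimpleGraph V) (S : Set V) : Prop where
  sup : Sup G S
  noh : NOH G
  nop : NOP G
  tw : Tw3 G
  nct : ¬ CT G S
  min : ∀ (G' : SimpleGraph V) (S' : Set V), Sup G' S' → NOH G' → NOP G' → Tw3 G' →
    S'.ncard < S.ncard → CT G' S'

/-! ### Attachments of a vertex `c` to a path `R` from `x` to `y` with `n` edges -/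

/-- exactly one neighbour `g` -/
def AU (G : SimpleGraph V) (c : V) (n : ℕ) (x y : V) (R : Set V) (g : V) : Prop :=
  ∃ (i j : ℕ) (R1 R2 : Set V), IP G i x g R1 ∧ IP G j g y R2 ∧ i + j = n ∧ R1 ∪ R2 = R ∧
    R1 ∩ R2 = {g} ∧ NE G (R1 \ {g}) (R2 \ {g}) ∧ ∀ w ∈ R, G.Adj c w ↔ w = g

/-- exactly two neighbours `g`, `g'`, which are adjacent -/
def AA (G : SimpleGraph V) (c : V) (n : ℕ) (x y : V) (R : Set V) (g g' : V) : Prop :=
  ∃ (i j : ℕ) (R1 R2 : Set V), IP G i x g R1 ∧ IP G j g' y R2 ∧ i + j + 1 = n ∧ R1 ∪ R2 = R ∧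
    Disjoint R1 R2 ∧ XE G R1 R2 g g' ∧ ∀ w ∈ R, G.Adj c w ↔ w = g ∨ w = g'

/-- the first neighbour `g` and the last neighbour `g'` are different and not adjacent -/
def AN (G : SimpleGraph V) (c : V) (n : ℕ) (x y : V) (R : Set V) (g g' : V) : Prop :=
  ∃ (i j : ℕ) (R1 R2 : Set V), IP G i x g R1 ∧ IP G j g' y R2 ∧ i + j + 2 ≤ n ∧ R1 ⊆ R ∧
    R2 ⊆ R ∧ Disjoint R1 R2 ∧ NE G R1 R2 ∧ (∀ w ∈ R1, G.Adj c w ↔ w = g) ∧
    ∀ w ∈ R2, G.Adj c w ↔ w = g'

/-- `D` is connected -/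
def Cn (G : SimpleGraph V) (D : Set V) : Prop :=
  ∀ X : Set V, X ⊆ D → X.Nonempty → (∀ u ∈ X, ∀ w ∈ D, G.Adj u w → w ∈ X) → X = D

/-- a path `R` from `d` to `d'` outside of the prism; the neighbours of `d` in the prism are on the
rung `i`, those of `d'` on the rung `j`, the other vertices have no neighbours in the prism -/
def Cnr (G : SimpleGraph V) (P : Fin 3 → Set V) (i j : Fin 3) (l : ℕ) (d d' : V) (R : Set V) :
    Prop :=
  IP G l d d' R ∧ (∀ r ∈ R, r ∉ ver P) ∧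
    ∀ r ∈ R, ∀ g ∈ ver P, G.Adj r g → (r = d ∧ g ∈ P i) ∨ (r = d' ∧ g ∈ P j)

/-! ### The elimination tree -/

/-- `t` is the parent of `u` -/
def par (H : SimpleGraph V) (f : V → ℕ) (u t : V) : Prop :=
  t ∈ upper H f u ∧ ∀ w ∈ upper H f u, f t ≤ f w

/-- the descendants of `t` (including `t`) -/
def dn (H : SimpleGraph V) (f : V → ℕ) (t : V) : Set V :=
  {u | Relation.ReflTransGen (par H f) u t}

/-- a piece: the set `D` consists of the corners `a i`, `i ∈ J`, of an even prism; these have no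
neighbours outside of the prism; `Q` is the set of the neighbours of `D` outside of `D` -/
structure Pc (G : SimpleGraph V) (a b : Fin 3 → V) (n : Fin 3 → ℕ) (P : Fin 3 → Set V)
    (c : Fin 3 → V) (J : Finset (Fin 3)) (D Q : Set V) : Prop where
  pr : EPr G a b n P
  nx : ∀ i, G.Adj (a i) (c i) ∧ c i ∈ P i
  ne : J.Nonempty
  hD : D = {v | ∃ i, i ∈ J ∧ v = a i}
  hQ : Q = {v | (∃ i, i ∈ J ∧ v = c i) ∨ ∃ i, i ∉ J ∧ v = a i}
  nb : ∀ i, i ∈ J → ∀ w, G.Adj (a i) w → w = c i ∨ ∃ j, j ≠ i ∧ w = a j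

def IsPc (G : SimpleGraph V) (D Q : Set V) : Prop :=
  ∃ (a b : Fin 3 → V) (n : Fin 3 → ℕ) (P : Fin 3 → Set V) (c : Fin 3 → V) (J : Finset (Fin 3)),
    Pc G a b n P c J D Q

/-- the part of the prism on the other side of `Q` -/
def kb (P : Fin 3 → Set V) (D Q : Set V) : Set V := ver P \ (D ∪ Q)

/-- `D'`, `Q'` is another piece -/
structure Sib (G : SimpleGraph V) (a b : Fin 3 → V) (n : Fin 3 → ℕ) (P : Fin 3 → Set V)
    (c : Fin 3 → V) (J : Finset (Fin 3)) (D Q D' Q' : Set V) (t : V) : Prop where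
  pc : Pc G a b n P c J D Q
  pc' : IsPc G D' Q'
  dis : Disjoint D' (D ∪ Q)
  dis' : Disjoint Q' D
  sub : (Q' \ Q).Subsingleton
  tQ : t ∈ Q
  tQ' : t ∈ Q'

/-- minimal counterexample with an elimination order -/
structure Ctx [Finite V] (G : SimpleGraph V) (S : Set V) (H : SimpleGraph V) (f : V → ℕ) :
    Prop where
  mc : MC G S
  le : G ≤ H
  peo : PEO H f
  sup : Sup H S

/-- `v` is joined to the vertices of `N` -/
def att (G : SimpleGraph V) (v : V) (N : Set V) : SimpleGraph V where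
  Adj a b := a ≠ b ∧ (G.Adj a b ∨ (a = v ∧ b ∈ N) ∨ (b = v ∧ a ∈ N))
  symm := ⟨by
    rintro a b ⟨h1, h2⟩
    refine ⟨h1.symm, ?_⟩
    rcases h2 with h | h | h
    · exact Or.inl h.symm
    · exact Or.inr (Or.inr h)
    · exact Or.inr (Or.inl h)⟩
  loopless := ⟨fun _ h => h.1 rfl⟩

end Pool.Agent.H48.ER
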