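import Pool.Agent.H48.ER.Targets

/-!
# MP_816b90_co: row PLB (a connection with two adjacent pairs of attachments)
-/

set_option autoImplicit false

namespace Pool.Agent.H48.ER

variable {V : Type} {G : SimpleGraph V}

private theorem nd {A B : Set V} (h : Disjoint A B) {a b : V} (ha : a ∈ A) (hb : b ∈ B) : a ≠ b :=
  fun e => Set.disjoint_left.1 h ha (e ▸ hb)

/-- the prism of the second case -/
private theorem plb2 (hEVN : T_EVN) (hG : NOH G) (hG2 : NOP G) {d d' g g' h' ai bi bj ak bk : V}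
    {l al al1 be1 nk : ℕ} {R R1 R2 T2 K : Set V} (pR : IP G l d d' R) (pR1 : IP G al ai g R1)
    (pR2 : IP G al1 g' bi R2) (pT2 : IP G be1 h' bj T2) (pK : IP G nk ak bk K) (ho : 1 ≤ al1)
    (dRR1 : Disjoint R R1) (dRR2 : Disjoint R R2) (dRT2 : Disjoint R T2) (dRK : Disjoint R K)
    (dR1R2 : Disjoint R1 R2) (dR1T2 : Disjoint R1 T2) (dR1K : Disjoint R1 K)
    (dR2T2 : Disjoint R2 T2) (dR2K : Disjoint R2 K) (dT2K : Disjoint T2 K)
    (xRR1 : XE G R R1 d g) (xRR2 : XE G R R2 d g') (xRT2 : XE G R T2 d' h') (xRK : NE G R K)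
    (xR1R2 : XE G R1 R2 g g') (xR1T2 : NE G R1 T2) (xR1K : XE G R1 K ai ak)
    (xR2T2 : XE G R2 T2 bi bj) (xR2K : XE G R2 K bi bk) (xT2K : XE G T2 K bj bk)
    (e1 : Even al) (e2 : Even nk) : False := by
  have r2 := pR.append pT2 dRT2 xRT2
  have r3 := pR1.rev.append pK dR1K xR1K
  have md : d ∈ R := pR.left_mem
  have mg : g ∈ R1 := pR1.right_mem
  have mbj : bj ∈ T2 := pT2.right_mem
  have mbk : bk ∈ K := pK.right_mem
  have x12 : ∀ u ∈ R2, ∀ v ∈ R ∪ T2, G.Adj u v ↔ (u = g' ∧ v = d) ∨ (u = bi ∧ v = bj) := by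
    rintro u hu v (hv | hv)
    · rw [G.adj_comm, xRR2 v hv u hu]
      have := nd dRT2 hv mbj
      tauto
    · rw [xR2T2 u hu v hv]
      have := (nd dRT2 md hv).symm
      tauto
  have x13 : ∀ u ∈ R2, ∀ v ∈ R1 ∪ K, G.Adj u v ↔ (u = g' ∧ v = g) ∨ (u = bi ∧ v = bk) := by
    rintro u hu v (hv | hv)
    · rw [G.adj_comm, xR1R2 v hv u hu]
      have := nd dR1K hv mbk
      tauto
    · rw [xR2K u hu v hv]
      have := (nd dR1K mg hv).symm
      tauto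
  have x23 : ∀ u ∈ R ∪ T2, ∀ v ∈ R1 ∪ K, G.Adj u v ↔ (u = d ∧ v = g) ∨ (u = bj ∧ v = bk) := by
    rintro u (hu | hu) v (hv | hv)
    · rw [xRR1 u hu v hv]
      have := nd dRT2 hu mbj
      tauto
    · have h1 := xRK u hu v hv
      have h2 := nd dRT2 hu mbj
      have h3 := (nd dR1K mg hv).symm
      tauto
    · have h1 : ¬ G.Adj u v := fun h => xR1T2 v hv u hu h.symm
      have h2 := (nd dRT2 md hu).symm
      have h3 := nd dR1K hv mbk
      tauto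
    · rw [xT2K u hu v hv]
      have := (nd dRT2 md hu).symm
      tauto
  have hp := mk3 pR2 r2 r3 ho (by omega) (by omega)
    (Set.disjoint_union_right.2 ⟨dRR2.symm, dR2T2⟩)
    (Set.disjoint_union_right.2 ⟨dR1R2.symm, dR2K⟩)
    (Set.disjoint_union_left.2 ⟨Set.disjoint_union_right.2 ⟨dRR1, dRK⟩,
      Set.disjoint_union_right.2 ⟨dR1T2.symm, dT2K⟩⟩) x12 x13 x23
  have h3 : Even (al + nk + 1) := (hEVN V G _ _ _ _ hG hp).2 hG2 2
  obtain ⟨s, hs⟩ := e1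
  obtain ⟨t, ht⟩ := e2
  obtain ⟨w, hw⟩ := h3
  omega

/-- the prism of the fourth case -/
private theorem plb4 (hEVN : T_EVN) (hG : NOH G) (hG2 : NOP G) {d d' g g' h h' ai bi aj bj : V}
    {l al al1 be be1 : ℕ} {R R1 R2 T1 T2 : Set V} (pR : IP G l d d' R) (pR1 : IP G al ai g R1)
    (pR2 : IP G al1 g' bi R2) (pT1 : IP G be aj h T1) (pT2 : IP G be1 h' bj T2)
    (dRR1 : Disjoint R R1) (dRR2 : Disjoint R R2) (dRT1 : Disjoint R T1) (dRT2 : Disjoint R T2)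
    (dR1R2 : Disjoint R1 R2) (dR1T1 : Disjoint R1 T1) (dR1T2 : Disjoint R1 T2)
    (dR2T1 : Disjoint R2 T1) (dR2T2 : Disjoint R2 T2) (dT1T2 : Disjoint T1 T2)
    (xRR1 : XE G R R1 d g) (xRR2 : XE G R R2 d g') (xRT1 : XE G R T1 d' h)
    (xRT2 : XE G R T2 d' h') (xR1R2 : XE G R1 R2 g g') (xR1T1 : XE G R1 T1 ai aj)
    (xR1T2 : NE G R1 T2) (xR2T1 : NE G R2 T1) (xR2T2 : XE G R2 T2 bi bj)
    (xT1T2 : XE G T1 T2 h h') (e1 : Odd l) : False := by
  have r2 := pR1.rev.append pT1 dR1T1 xR1T1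
  have r3 := pR2.append pT2.rev dR2T2 xR2T2
  have mg : g ∈ R1 := pR1.right_mem
  have mg' : g' ∈ R2 := pR2.left_mem
  have mh : h ∈ T1 := pT1.right_mem
  have mh' : h' ∈ T2 := pT2.left_mem
  have x12 : ∀ u ∈ R, ∀ v ∈ R1 ∪ T1, G.Adj u v ↔ (u = d ∧ v = g) ∨ (u = d' ∧ v = h) := by
    rintro u hu v (hv | hv)
    · rw [xRR1 u hu v hv]
      have := nd dR1T1 hv mh
      tauto
    · rw [xRT1 u hu v hv]
      have := (nd dR1T1 mg hv).symm
      tauto
  have x13 : ∀ u ∈ R, ∀ v ∈ R2 ∪ T2, G.Adj u v ↔ (u = d ∧ v = g') ∨ (u = d' ∧ v = h') := by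
    rintro u hu v (hv | hv)
    · rw [xRR2 u hu v hv]
      have := nd dR2T2 hv mh'
      tauto
    · rw [xRT2 u hu v hv]
      have := (nd dR2T2 mg' hv).symm
      tauto
  have x23 : ∀ u ∈ R1 ∪ T1, ∀ v ∈ R2 ∪ T2, G.Adj u v ↔ (u = g ∧ v = g') ∨ (u = h ∧ v = h') := by
    rintro u (hu | hu) v (hv | hv)
    · rw [xR1R2 u hu v hv]
      have := nd dR1T1 hu mh
      tauto
    · have h1 := xR1T2 u hu v hv
      have h2 := nd dR1T1 hu mh
      have h3 := (nd dR2T2 mg' hv).symm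
      tauto
    · have h1 : ¬ G.Adj u v := fun h => xR2T1 v hv u hu h.symm
      have h2 := (nd dR1T1 mg hu).symm
      have h3 := nd dR2T2 hv mh'
      tauto
    · rw [xT1T2 u hu v hv]
      have := (nd dR1T1 mg hu).symm
      tauto
  obtain ⟨s, hs⟩ := e1
  have hp := mk3 pR r2 r3 (by omega) (by omega) (by omega)
    (Set.disjoint_union_right.2 ⟨dRR1, dRT1⟩)
    (Set.disjoint_union_right.2 ⟨dRR2, dRT2⟩)
    (Set.disjoint_union_left.2 ⟨Set.disjoint_union_right.2 ⟨dR1R2, dR1T2⟩,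
      Set.disjoint_union_right.2 ⟨dR2T1.symm, dT1T2⟩⟩) x12 x13 x23
  have h3 : Even l := (hEVN V G _ _ _ _ hG hp).2 hG2 0
  obtain ⟨w, hw⟩ := h3
  omega

theorem pf_PLB (hHOL : T_HOL) (hEVN : T_EVN) : T_PLB := by
  intro V G a b n P i j l d d' g g' h h' R hG hG2 hE hij hC hA hB
  obtain ⟨hPr, hev⟩ := hE
  obtain ⟨pR, hRP, hRadj⟩ := hC
  obtain ⟨al, al1, R1, R2, pR1, pR2, hal, hR12, dR1R2, xR1R2, hdg⟩ := hA
  obtain ⟨be, be1, T1, T2, pT1, pT2, hbe, hT12, dT1T2, xT1T2, hdh⟩ := hB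
  obtain ⟨k, hki, hkj⟩ : ∃ k : Fin 3, k ≠ i ∧ k ≠ j := by
    have : ∀ i j : Fin 3, ∃ k, k ≠ i ∧ k ≠ j := by decide
    exact this i j
  have pK : IP G (n k) (a k) (b k) (P k) := hPr.ip k
  have sR1 : R1 ⊆ P i := fun v hv => hR12 ▸ Or.inl hv
  have sR2 : R2 ⊆ P i := fun v hv => hR12 ▸ Or.inr hv
  have sT1 : T1 ⊆ P j := fun v hv => hT12 ▸ Or.inl hv
  have sT2 : T2 ⊆ P j := fun v hv => hT12 ▸ Or.inr hv
  have mai : a i ∈ R1 := pR1.left_mem
  have mbi : b i ∈ R2 := pR2.right_mem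
  have maj : a j ∈ T1 := pT1.left_mem
  have mbj : b j ∈ T2 := pT2.right_mem
  have mg : g ∈ R1 := pR1.right_mem
  have mg' : g' ∈ R2 := pR2.left_mem
  have mh : h ∈ T1 := pT1.right_mem
  have mh' : h' ∈ T2 := pT2.left_mem
  have dij : Disjoint (P i) (P j) := hPr.dis i j hij
  have dik : Disjoint (P i) (P k) := hPr.dis i k hki.symm
  have djk : Disjoint (P j) (P k) := hPr.dis j k hkj.symm
  have dRP : ∀ m, Disjoint R (P m) := fun m =>
    Set.disjoint_left.2 fun r hr hm => hRP r hr (mem_ver hm)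
  have dRR1 : Disjoint R R1 := (dRP i).mono_right sR1
  have dRR2 : Disjoint R R2 := (dRP i).mono_right sR2
  have dRT1 : Disjoint R T1 := (dRP j).mono_right sT1
  have dRT2 : Disjoint R T2 := (dRP j).mono_right sT2
  have dRK : Disjoint R (P k) := dRP k
  have dR1T1 : Disjoint R1 T1 := dij.mono sR1 sT1
  have dR1T2 : Disjoint R1 T2 := dij.mono sR1 sT2
  have dR2T1 : Disjoint R2 T1 := dij.mono sR2 sT1
  have dR2T2 : Disjoint R2 T2 := dij.mono sR2 sT2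
  have dR1K : Disjoint R1 (P k) := dik.mono_left sR1
  have dR2K : Disjoint R2 (P k) := dik.mono_left sR2
  have dT1K : Disjoint T1 (P k) := djk.mono_left sT1
  have dT2K : Disjoint T2 (P k) := djk.mono_left sT2
  have xRi : ∀ r ∈ R, ∀ u ∈ P i, G.Adj r u ↔ r = d ∧ (u = g ∨ u = g') := by
    intro r hr u hu
    constructor
    · intro hadj
      rcases hRadj r hr u (mem_ver hu) hadj with ⟨h1, _⟩ | ⟨_, h2⟩
      · rw [h1] at hadj
        exact ⟨h1, (hdg u hu).1 hadj⟩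
      · exact absurd rfl (nd dij hu h2)
    · rintro ⟨rfl, h2⟩
      exact (hdg u hu).2 h2
  have xRj : ∀ r ∈ R, ∀ u ∈ P j, G.Adj r u ↔ r = d' ∧ (u = h ∨ u = h') := by
    intro r hr u hu
    constructor
    · intro hadj
      rcases hRadj r hr u (mem_ver hu) hadj with ⟨_, h2⟩ | ⟨h1, _⟩
      · exact absurd rfl (nd dij h2 hu)
      · rw [h1] at hadj
        exact ⟨h1, (hdh u hu).1 hadj⟩
    · rintro ⟨rfl, h2⟩
      exact (hdh u hu).2 h2
  have xRK : NE G R (P k) := by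
    intro r hr u hu hadj
    rcases hRadj r hr u (mem_ver hu) hadj with ⟨_, h2⟩ | ⟨_, h2⟩
    · exact nd dik h2 hu rfl
    · exact nd djk h2 hu rfl
  have xRR1 : XE G R R1 d g := by
    intro r hr u hu
    rw [xRi r hr u (sR1 hu)]
    have := nd dR1R2 hu mg'
    tauto
  have xRR2 : XE G R R2 d g' := by
    intro r hr u hu
    rw [xRi r hr u (sR2 hu)]
    have := (nd dR1R2 mg hu).symm
    tauto
  have xRT1 : XE G R T1 d' h := by
    intro r hr u hu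
    rw [xRj r hr u (sT1 hu)]
    have := nd dT1T2 hu mh'
    tauto
  have xRT2 : XE G R T2 d' h' := by
    intro r hr u hu
    rw [xRj r hr u (sT2 hu)]
    have := (nd dT1T2 mh hu).symm
    tauto
  have xR1T1 : XE G R1 T1 (a i) (a j) := by
    intro u hu v hv
    rw [hPr.adj i j hij u (sR1 hu) v (sT1 hv)]
    have := nd dR1R2 hu mbi
    tauto
  have xR1T2 : NE G R1 T2 := by
    intro u hu v hv hadj
    rcases (hPr.adj i j hij u (sR1 hu) v (sT2 hv)).1 hadj with ⟨_, h2⟩ | ⟨h1, _⟩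
    · exact nd dT1T2 maj hv h2.symm
    · exact nd dR1R2 hu mbi h1
  have xR2T1 : NE G R2 T1 := by
    intro u hu v hv hadj
    rcases (hPr.adj i j hij u (sR2 hu) v (sT1 hv)).1 hadj with ⟨h1, _⟩ | ⟨_, h2⟩
    · exact nd dR1R2 mai hu h1.symm
    · exact nd dT1T2 hv mbj h2
  have xR2T2 : XE G R2 T2 (b i) (b j) := by
    intro u hu v hv
    rw [hPr.adj i j hij u (sR2 hu) v (sT2 hv)]
    have := (nd dR1R2 mai hu).symm
    tauto
  have xR1K : XE G R1 (P k) (a i) (a k) := by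
    intro u hu v hv
    rw [hPr.adj i k hki.symm u (sR1 hu) v hv]
    have := nd dR1R2 hu mbi
    tauto
  have xR2K : XE G R2 (P k) (b i) (b k) := by
    intro u hu v hv
    rw [hPr.adj i k hki.symm u (sR2 hu) v hv]
    have := (nd dR1R2 mai hu).symm
    tauto
  have xT1K : XE G T1 (P k) (a j) (a k) := by
    intro u hu v hv
    rw [hPr.adj j k hkj.symm u (sT1 hu) v hv]
    have := nd dT1T2 hu mbj
    tauto
  have xT2K : XE G T2 (P k) (b j) (b k) := by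
    intro u hu v hv
    rw [hPr.adj j k hkj.symm u (sT2 hu) v hv]
    have := (nd dT1T2 maj hu).symm
    tauto
  by_cases h0 : l = 0 ∧ al = 0 ∧ be = 0
  · obtain ⟨rfl, rfl, rfl⟩ := h0
    left
    rw [pR1.eq_of_zero.1, pT1.eq_of_zero.1]
    exact ⟨(xRR1 d pR.left_mem g mg).2 ⟨rfl, rfl⟩, (xRT1 d' pR.right_mem h mh).2 ⟨rfl, rfl⟩⟩
  exfalso
  obtain ⟨c1, hc1⟩ := hev i
  obtain ⟨c2, hc2⟩ := hev j
  rcases Nat.even_or_odd al with ea | ea
  · have hal1 : 1 ≤ al1 := by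
      obtain ⟨c3, hc3⟩ := ea
      omega
    exact plb2 hEVN hG hG2 pR pR1 pR2 pT2 pK hal1 dRR1 dRR2 dRT2 dRK dR1R2 dR1T2 dR1K dR2T2 dR2K
      dT2K xRR1 xRR2 xRT2 xRK xR1R2 xR1T2 xR1K xR2T2 xR2K xT2K ea (hev k)
  rcases Nat.even_or_odd be with eb | eb
  · have hbe1 : 1 ≤ be1 := by
      obtain ⟨c3, hc3⟩ := eb
      omega
    exact plb2 hEVN hG hG2 pR.rev pT1 pT2 pR2 pK hbe1 dRT1 dRT2 dRR2 dRK dT1T2 dR2T1.symm dT1K
      dR2T2.symm dT2K dR2K xRT1 xRT2 xRR2 xRK xT1T2 (fun u hu v hv hadj => xR2T1 v hv u hu hadj.symm)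
      xT1K (fun u hu v hv => by rw [G.adj_comm, xR2T2 v hv u hu]; tauto) xT2K xR2K eb (hev k)
  · have h1 : Even (l + (al + be + 1)) := by
      refine hHOL V G l (al + be + 1) d d' g h R (R1 ∪ T1) hG pR
        (pR1.rev.append pT1 dR1T1 xR1T1) (Set.disjoint_union_right.2 ⟨dRR1, dRT1⟩) ?_ ?_
      · rintro u hu v (hv | hv)
        · rw [xRR1 u hu v hv]
          have := nd dR1T1 hv mh
          tauto
        · rw [xRT1 u hu v hv]
          have := (nd dR1T1 mg hv).symm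
          tauto
      · obtain ⟨c3, hc3⟩ := ea
        omega
    have hl : Odd l := by
      obtain ⟨c3, hc3⟩ := ea
      obtain ⟨c4, hc4⟩ := eb
      obtain ⟨c5, hc5⟩ := h1
      rcases Nat.even_or_odd l with ⟨c6, hc6⟩ | hl
      · omega
      · exact hl
    exact plb4 hEVN hG hG2 pR pR1 pR2 pT1 pT2 dRR1 dRR2 dRT1 dRT2 dR1R2 dR1T1 dR1T2 dR2T1 dR2T2
      dT1T2 xRR1 xRR2 xRT1 xRT2 xR1R2 xR1T1 xR1T2 xR2T1 xR2T2 xT1T2 hl

end Pool.Agent.H48.ER
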